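import Pool.Agent.Lib.MP_e46711_an.H1.Slice

/-!
Module B0c: averages over slices (`H1TAverage`) and the Gagliardo-Nirenberg inequality
(`GNStatement`).
-/

set_option autoImplicit false

open Set Filter Topology MeasureTheory
open scoped ContDiff

namespace Pool.Agent.Lib.MP_e46711_an.H1

theorem h1t_average : H1TAverage := by
  intro ℓ hℓ U V W h
  obtain ⟨φ, hφ, l1, l2, l3⟩ := exists_L2T h
  refine ⟨?_, ?_⟩
  · refine H1T_of_L2T (φ := fun n => avY (φ n)) (fun n => C1per_avY (hφ n)) l1.avY ?_ ?_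
    · have e : (fun n => dS (avY (φ n))) = fun n => avY (dS (φ n)) := by
        funext n z
        exact dS_avY (hφ n) z
      rw [e]
      exact l2.avY
    · have e : (fun n => dY (avY (φ n))) = fun _ _ => (0:ℝ) := by
        funext n z
        exact dY_avY (hφ n) z
      rw [e]
      exact L2T.const (memLp_const 0)
  · have h1 := (l1.sub l1.avY).sq
    have h2 := l3.sq.const_mul 4
    exact le_of_tendsto_of_tendsto' h1 h2 fun n => int_sub_avY hℓ.le (hφ n)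

section GN

variable {ℓ : ℝ} {φ : ℝ × ℝ → ℝ}

theorem cont_ii' (hℓ : 0 ≤ ℓ) {f : ℝ × ℝ → ℝ} (hf : Continuous f) :
    Continuous fun y => ∫ s in (0:ℝ)..ℓ, f (s, y) :=
  intervalIntegral.continuous_parametric_intervalIntegral_of_continuous' (f := fun y s => f (s, y))
    (hf.comp (by fun_prop)) _ _

theorem fubswap (hℓ : 0 ≤ ℓ) {f : ℝ × ℝ → ℝ} (hf : Continuous f) :
    ∫ z, f z ∂muT ℓ = ∫ y in (-1:ℝ)..1, ∫ s in (0:ℝ)..ℓ, f (s, y) := by
  rw [ii_Ioo]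
  simp_rw [intervalIntegral.integral_of_le hℓ]
  exact integral_prod_symm f (cont_int hf)

/-- sup over a slice -/
theorem sup_slice (h : C1per ℓ φ) (s : ℝ) {y : ℝ} (hy : y ∈ Icc (-1:ℝ) 1) :
    |φ (s, y)| ≤ (∫ y in (-1:ℝ)..1, |φ (s, y)|) / 2 + ∫ y in (-1:ℝ)..1, |dY φ (s, y)| := by
  have h1 := sub_ub h s hy
  have h2 : |ub φ s| ≤ (∫ y in (-1:ℝ)..1, |φ (s, y)|) / 2 := by
    unfold ub
    rw [abs_div, abs_of_pos (by norm_num : (0:ℝ) < 2)]
    exact div_le_div_of_nonneg_right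
      (intervalIntegral.abs_integral_le_integral_abs (by norm_num)) (by norm_num)
  calc |φ (s, y)| = |ub φ s + (φ (s, y) - ub φ s)| := by ring_nf
    _ ≤ |ub φ s| + |φ (s, y) - ub φ s| := abs_add_le _ _
    _ ≤ _ := add_le_add h2 h1

/-- sup along the circle -/
theorem sup_circle (hℓ : 0 < ℓ) (h : C1per ℓ φ) {s : ℝ} (hs : s ∈ Icc 0 ℓ) (y : ℝ) :
    |φ (s, y)| ≤ (∫ s in (0:ℝ)..ℓ, |φ (s, y)|) / ℓ + ∫ s in (0:ℝ)..ℓ, |dS φ (s, y)| := by
  have hc : Continuous fun s => dS φ (s, y) := (cont_dS h).comp (by fun_prop)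
  have hcφ : Continuous fun s => φ (s, y) := h.1.continuous.comp (by fun_prop)
  have key : ∀ a b : ℝ, a ∈ Icc 0 ℓ → b ∈ Icc 0 ℓ → a ≤ b →
      |φ (b, y) - φ (a, y)| ≤ ∫ s in (0:ℝ)..ℓ, |dS φ (s, y)| := by
    intro a b ha hb hab
    rw [← intervalIntegral.integral_eq_sub_of_hasDerivAt (fun s _ => hasDeriv_S h s y)
      (hc.intervalIntegrable _ _)]
    refine (intervalIntegral.abs_integral_le_integral_abs hab).trans ?_
    exact intervalIntegral.integral_mono_interval ha.1 hab hb.2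
      (Eventually.of_forall fun y => abs_nonneg _) (hc.abs.intervalIntegrable _ _)
  have key' : ∀ t ∈ Icc 0 ℓ, |φ (s, y)| ≤ |φ (t, y)| + ∫ s in (0:ℝ)..ℓ, |dS φ (s, y)| := by
    intro t ht
    have h2 : |φ (s, y) - φ (t, y)| ≤ ∫ s in (0:ℝ)..ℓ, |dS φ (s, y)| := by
      rcases le_total t s with h1 | h1
      · exact key t s ht hs h1
      · rw [abs_sub_comm]
        exact key s t hs ht h1
    calc |φ (s, y)| = |φ (t, y) + (φ (s, y) - φ (t, y))| := by ring_nf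
      _ ≤ |φ (t, y)| + |φ (s, y) - φ (t, y)| := abs_add_le _ _
      _ ≤ _ := by linarith
  have h3 : ∫ _t in (0:ℝ)..ℓ, |φ (s, y)| ≤
      ∫ t in (0:ℝ)..ℓ, (|φ (t, y)| + ∫ s in (0:ℝ)..ℓ, |dS φ (s, y)|) := by
    apply intervalIntegral.integral_mono_on hℓ.le
    · exact continuous_const.intervalIntegrable _ _
    · exact (hcφ.abs.add continuous_const).intervalIntegrable _ _
    · intro t ht
      exact key' t ht
  rw [intervalIntegral.integral_add (hcφ.abs.intervalIntegrable _ _)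
    (continuous_const.intervalIntegrable _ _), intervalIntegral.integral_const,
    intervalIntegral.integral_const, smul_eq_mul, smul_eq_mul, sub_zero] at h3
  have h4 : |φ (s, y)| = (ℓ * |φ (s, y)|) / ℓ := by field_simp
  rw [h4]
  have h5 : (∫ s in (0:ℝ)..ℓ, |φ (s, y)|) / ℓ + ∫ s in (0:ℝ)..ℓ, |dS φ (s, y)| =
      ((∫ s in (0:ℝ)..ℓ, |φ (s, y)|) + ℓ * ∫ s in (0:ℝ)..ℓ, |dS φ (s, y)|) / ℓ := by
    field_simp
  rw [h5]
  exact div_le_div_of_nonneg_right h3 hℓ.le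

theorem gn_C1 (hℓ : 0 < ℓ) (h : C1per ℓ φ) : ∫ z, φ z ^ 2 ∂muT ℓ ≤
    ((∫ z, |φ z| ∂muT ℓ) / 2 + ∫ z, |dY φ z| ∂muT ℓ) *
      ((∫ z, |φ z| ∂muT ℓ) / ℓ + ∫ z, |dS φ z| ∂muT ℓ) := by
  have hφc := h.1.continuous
  set a : ℝ → ℝ := fun s => (∫ y in (-1:ℝ)..1, |φ (s, y)|) / 2 + ∫ y in (-1:ℝ)..1, |dY φ (s, y)|
    with ha
  set b : ℝ → ℝ := fun y => (∫ s in (0:ℝ)..ℓ, |φ (s, y)|) / ℓ + ∫ s in (0:ℝ)..ℓ, |dS φ (s, y)|
    with hb
  have hac : Continuous a := ((cont_ii hφc.abs).div_const 2).add (cont_ii (cont_dY h).abs)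
  have hbc : Continuous b :=
    ((cont_ii' hℓ.le hφc.abs).div_const ℓ).add (cont_ii' hℓ.le (cont_dS h).abs)
  have e1 : (∫ z, |φ z| ∂muT ℓ) / 2 + ∫ z, |dY φ z| ∂muT ℓ = ∫ s in (0:ℝ)..ℓ, a s := by
    rw [intervalIntegral.integral_add (((cont_ii hφc.abs).div_const 2).intervalIntegrable _ _)
      ((cont_ii (cont_dY h).abs).intervalIntegrable _ _), intervalIntegral.integral_div,
      fub' hℓ.le hφc.abs, fub' hℓ.le (cont_dY h).abs]
  have e2 : (∫ z, |φ z| ∂muT ℓ) / ℓ + ∫ z, |dS φ z| ∂muT ℓ = ∫ y in (-1:ℝ)..1, b y := by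
    rw [intervalIntegral.integral_add
      (((cont_ii' hℓ.le hφc.abs).div_const ℓ).intervalIntegrable _ _)
      ((cont_ii' hℓ.le (cont_dS h).abs).intervalIntegrable _ _), intervalIntegral.integral_div,
      fubswap hℓ.le hφc.abs, fubswap hℓ.le (cont_dS h).abs]
  have e3 : (∫ s in (0:ℝ)..ℓ, a s) * (∫ y in (-1:ℝ)..1, b y) =
      ∫ z, a z.1 * b z.2 ∂muT ℓ := by
    have hc : Continuous fun z : ℝ × ℝ => a z.1 * b z.2 :=
      (hac.comp continuous_fst).mul (hbc.comp continuous_snd)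
    rw [fub' hℓ.le hc, ← intervalIntegral.integral_mul_const]
    congr 1
    ext s
    exact (intervalIntegral.integral_const_mul _ _).symm
  rw [e1, e2, e3]
  have hc : Continuous fun z : ℝ × ℝ => a z.1 * b z.2 :=
    (hac.comp continuous_fst).mul (hbc.comp continuous_snd)
  refine integral_mono_ae (cont_int (hφc.pow 2)) (cont_int hc) ?_
  filter_upwards [ae_muT ℓ] with z hz
  obtain ⟨s, y⟩ := z
  have h1 := sup_slice h s (Ioo_subset_Icc_self hz.2)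
  have h2 := sup_circle hℓ h (Ioc_subset_Icc_self hz.1) y
  change φ (s, y) ^ 2 ≤ a s * b y
  rw [← sq_abs, pow_two]
  exact mul_le_mul h1 h2 (abs_nonneg _) ((abs_nonneg _).trans h1)

end GN

theorem gn : GNStatement := by
  intro ℓ hℓ
  refine ⟨1 + 1 / ℓ, fun U V W h => ?_⟩
  obtain ⟨φ, hφ, l1, l2, l3⟩ := exists_L2T h
  have t1 := l1.sq
  have t2 := ((l1.absint.add l3.absint).const_mul (1 + 1 / ℓ)).mul (l1.absint.add l2.absint)
  refine le_of_tendsto_of_tendsto' t1 t2 fun n => (gn_C1 hℓ (hφ n)).trans ?_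
  have p1 : 0 ≤ ∫ z, |φ n z| ∂muT ℓ := integral_nonneg fun _ => abs_nonneg _
  have p2 : 0 ≤ ∫ z, |dY (φ n) z| ∂muT ℓ := integral_nonneg fun _ => abs_nonneg _
  have p3 : 0 ≤ ∫ z, |dS (φ n) z| ∂muT ℓ := integral_nonneg fun _ => abs_nonneg _
  have hi : 0 < 1 / ℓ := by positivity
  have q1 : (∫ z, |φ n z| ∂muT ℓ) / 2 + ∫ z, |dY (φ n) z| ∂muT ℓ ≤
      (∫ z, |φ n z| ∂muT ℓ) + ∫ z, |dY (φ n) z| ∂muT ℓ := by linarith
  have q2 : (∫ z, |φ n z| ∂muT ℓ) / ℓ + ∫ z, |dS (φ n) z| ∂muT ℓ ≤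
      (1 + 1 / ℓ) * ((∫ z, |φ n z| ∂muT ℓ) + ∫ z, |dS (φ n) z| ∂muT ℓ) := by
    rw [div_eq_mul_one_div]
    nlinarith [mul_nonneg p1 hi.le, mul_nonneg p3 hi.le]
  calc _ ≤ ((∫ z, |φ n z| ∂muT ℓ) + ∫ z, |dY (φ n) z| ∂muT ℓ) *
      ((1 + 1 / ℓ) * ((∫ z, |φ n z| ∂muT ℓ) + ∫ z, |dS (φ n) z| ∂muT ℓ)) :=
        mul_le_mul q1 q2 (by positivity) (by positivity)
    _ = _ := by ring

end Pool.Agent.Lib.MP_e46711_an.H1
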