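import Pool.Agent.Lib.MP_e46711_an.H1.Slice

/-!
Module B1b: `Coer2D`, `T42D`, `W12D`: reduction of the quadratic inequalities on the thin strip to
the one-dimensional ring, by averages over the slices.
-/

set_option autoImplicit false

open Set Filter Topology MeasureTheory
open scoped ContDiff

namespace Pool.Agent.Lib.MP_e46711_an.H1

/-- a smooth positive periodic weight -/
structure Wt (ℓ : ℝ) (h : ℝ → ℝ) : Prop where
  hℓ : 0 < ℓ
  sm : ContDiff ℝ ∞ h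
  per : ∀ s, h (s + ℓ) = h s
  pos : ∀ s, 0 < h s

section weight

variable {ℓ : ℝ} {h : ℝ → ℝ}

theorem Wt.cont (w : Wt ℓ h) : Continuous h := w.sm.continuous

theorem Wt.contd (w : Wt ℓ h) : Continuous (deriv h) :=
  w.sm.continuous_deriv (by exact_mod_cast le_top)

theorem Wt.bd (w : Wt ℓ h) : ∃ m > 0, ∃ K > 0, ∀ s ∈ Icc 0 ℓ,
    m ≤ h s ∧ h s ≤ K ∧ |deriv h s / h s| ≤ K := by
  obtain ⟨K1, hK1⟩ := (isCompact_Icc : IsCompact (Icc 0 ℓ)).exists_bound_of_continuousOn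
    w.cont.continuousOn
  obtain ⟨K2, hK2⟩ := (isCompact_Icc : IsCompact (Icc 0 ℓ)).exists_bound_of_continuousOn
    (w.contd.div w.cont (fun s => (w.pos s).ne')).continuousOn
  obtain ⟨x, -, hx⟩ := (isCompact_Icc : IsCompact (Icc 0 ℓ)).exists_isMinOn
    (nonempty_Icc.2 w.hℓ.le) w.cont.continuousOn
  refine ⟨h x, w.pos x, max (max K1 K2) 1, by positivity, fun s hs => ⟨hx hs, ?_, ?_⟩⟩
  · exact (le_abs_self _).trans ((hK1 s hs).trans ((le_max_left _ _).trans (le_max_left _ _)))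
  · exact (hK2 s hs).trans ((le_max_right _ _).trans (le_max_left _ _))

theorem cont_om (w : Wt ℓ h) (δ : ℝ) : Continuous (om ℓ h δ) := by
  have := w.cont
  unfold om
  fun_prop

theorem om_pos (δ : ℝ) (z : ℝ × ℝ) : 0 < om ℓ h δ z := Real.exp_pos _

/-- `ω → 1` uniformly -/
theorem om_close (w : Wt ℓ h) {η : ℝ} (hη : 0 < η) : ∀ᶠ δ in 𝓝[>] (0:ℝ),
    ∀ z : ℝ × ℝ, z.1 ∈ Icc 0 ℓ → z.2 ∈ Icc (-1) 1 → |om ℓ h δ z - 1| ≤ η := by
  obtain ⟨m, hm, K, hK, hb⟩ := w.bd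
  have hℓ := w.hℓ
  set c := 4 * Real.pi * K / ℓ with hc
  have hc0 : 0 < c := by positivity
  have h1 : ∀ᶠ δ in 𝓝[>] (0:ℝ), δ < min (1 / c) (η / (2 * c)) :=
    (eventually_lt_nhds (by positivity)).filter_mono nhdsWithin_le_nhds
  filter_upwards [h1, self_mem_nhdsWithin] with δ hδ hδ0 z hz1 hz2
  have hδ0' : 0 < δ := hδ0
  have e1 : |4 * Real.pi * δ * h z.1 * z.2 / ℓ| ≤ c * δ := by
    rw [abs_div, abs_mul, abs_mul, abs_of_pos hℓ, abs_of_pos (w.pos z.1),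
      abs_of_pos (by positivity : 0 < 4 * Real.pi * δ), hc, div_le_iff₀ hℓ]
    have h2 : |z.2| ≤ 1 := abs_le.2 hz2
    have h3 : h z.1 ≤ K := (hb _ hz1).2.1
    calc 4 * Real.pi * δ * h z.1 * |z.2| ≤ 4 * Real.pi * δ * K * 1 := by
          have hp := (w.pos z.1).le
          gcongr
      _ = 4 * Real.pi * K / ℓ * δ * ℓ := by field_simp
  have e2 : c * δ ≤ 1 := by
    have := hδ.le.trans (min_le_left _ _)
    calc c * δ ≤ c * (1 / c) := by gcongr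
      _ = 1 := by field_simp
  have e3 : 2 * (c * δ) ≤ η := by
    have := hδ.le.trans (min_le_right _ _)
    calc 2 * (c * δ) ≤ 2 * (c * (η / (2 * c))) := by gcongr
      _ = η := by field_simp
  unfold om
  exact (Real.abs_exp_sub_one_le (e1.trans e2)).trans (by linarith)

end weight

section forms

variable {ℓ : ℝ} {h : ℝ → ℝ}

/-- the two parts of the form -/
noncomputable def E1 (ℓ : ℝ) (h : ℝ → ℝ) (V W : ℝ × ℝ → ℝ) : ℝ :=
  ∫ z, G1 h V W z ^ 2 * (h z.1 / 2) ∂muT ℓ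
/-- the two parts of the form -/
noncomputable def E2 (ℓ : ℝ) (h : ℝ → ℝ) (δ : ℝ) (W : ℝ × ℝ → ℝ) : ℝ :=
  ∫ z, G2 h δ W z ^ 2 * (h z.1 / 2) ∂muT ℓ

theorem E1_nonneg (w : Wt ℓ h) (V W : ℝ × ℝ → ℝ) : 0 ≤ E1 ℓ h V W :=
  integral_nonneg fun z => mul_nonneg (sq_nonneg _) (by linarith [w.pos z.1])

theorem E2_nonneg (w : Wt ℓ h) (δ : ℝ) (W : ℝ × ℝ → ℝ) : 0 ≤ E2 ℓ h δ W :=
  integral_nonneg fun z => mul_nonneg (sq_nonneg _) (by linarith [w.pos z.1])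

theorem cont_c1 (w : Wt ℓ h) : Continuous fun z : ℝ × ℝ => deriv h z.1 / h z.1 * z.2 :=
  ((w.contd.comp continuous_fst).div (w.cont.comp continuous_fst)
    fun z => (w.pos z.1).ne').mul continuous_snd

theorem cont_c2 (w : Wt ℓ h) {δ : ℝ} (hδ : 0 < δ) : Continuous fun z : ℝ × ℝ => (δ * h z.1)⁻¹ :=
  (continuous_const.mul (w.cont.comp continuous_fst)).inv₀ fun z =>
    (mul_pos hδ (w.pos z.1)).ne'

theorem L2T_G1 (w : Wt ℓ h) {Vn Wn : ℕ → ℝ × ℝ → ℝ} {V W : ℝ × ℝ → ℝ}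
    (hV : L2T (muT ℓ) Vn V) (hW : L2T (muT ℓ) Wn W) :
    L2T (muT ℓ) (fun n => G1 h (Vn n) (Wn n)) (G1 h V W) := by
  obtain ⟨K, -, -, hK⟩ := bdd_muT (cont_c1 w) ℓ
  exact hV.sub (hW.bdd_mul (cont_c1 w).aestronglyMeasurable K hK)

theorem G2_eq (δ : ℝ) (W : ℝ × ℝ → ℝ) : G2 h δ W = fun z => (δ * h z.1)⁻¹ * W z := by
  ext z
  rw [G2, div_eq_inv_mul]

theorem L2T_G2 (w : Wt ℓ h) {δ : ℝ} (hδ : 0 < δ) {Wn : ℕ → ℝ × ℝ → ℝ} {W : ℝ × ℝ → ℝ}
    (hW : L2T (muT ℓ) Wn W) : L2T (muT ℓ) (fun n => G2 h δ (Wn n)) (G2 h δ W) := by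
  obtain ⟨K, -, -, hK⟩ := bdd_muT (cont_c2 w hδ) ℓ
  simp only [G2_eq]
  exact hW.bdd_mul (cont_c2 w hδ).aestronglyMeasurable K hK

theorem G1_memLp (w : Wt ℓ h) {V W : ℝ × ℝ → ℝ} (hV : MemLp V 2 (muT ℓ))
    (hW : MemLp W 2 (muT ℓ)) : MemLp (G1 h V W) 2 (muT ℓ) :=
  (L2T_G1 w (L2T.const hV) (L2T.const hW)).mg

theorem G2_memLp (w : Wt ℓ h) {δ : ℝ} (hδ : 0 < δ) {W : ℝ × ℝ → ℝ}
    (hW : MemLp W 2 (muT ℓ)) : MemLp (G2 h δ W) 2 (muT ℓ) :=
  (L2T_G2 w hδ (L2T.const hW)).mg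

/-- weighted products converge -/
theorem L2T.winner {f f' : ℕ → ℝ × ℝ → ℝ} {g g' k : ℝ × ℝ → ℝ} (hf : L2T (muT ℓ) f g)
    (hf' : L2T (muT ℓ) f' g') (hk : Continuous k) :
    Tendsto (fun n => ∫ z, f n z * f' n z * k z ∂muT ℓ) atTop (𝓝 (∫ z, g z * g' z * k z ∂muT ℓ)) := by
  obtain ⟨K, -, -, hK⟩ := bdd_muT hk ℓ
  have h1 := hf.inner (hf'.bdd_mul hk.aestronglyMeasurable K hK)
  have e : ∀ a b c : ℝ, a * b * c = a * (c * b) := fun a b c => by ring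
  simp only [e]
  exact h1

theorem wint {f g k : ℝ × ℝ → ℝ} (hf : MemLp f 2 (muT ℓ)) (hg : MemLp g 2 (muT ℓ))
    (hk : Continuous k) : Integrable (fun z => f z * g z * k z) (muT ℓ) := by
  obtain ⟨K, -, -, hK⟩ := bdd_muT hk ℓ
  exact (hf.integrable_mul hg).mul_bdd hk.aestronglyMeasurable (by simpa using hK)

theorem Bil_eq2 (w : Wt ℓ h) {δ : ℝ} (hδ : 0 < δ) {V W V' W' : ℝ × ℝ → ℝ}
    (hV : MemLp V 2 (muT ℓ)) (hW : MemLp W 2 (muT ℓ)) (hV' : MemLp V' 2 (muT ℓ))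
    (hW' : MemLp W' 2 (muT ℓ)) : Bil ℓ h δ V W V' W' =
      (∫ z, G1 h V W z * G1 h V' W' z * (h z.1 / 2) ∂muT ℓ) +
        ∫ z, G2 h δ W z * G2 h δ W' z * (h z.1 / 2) ∂muT ℓ := by
  have hc : Continuous fun z : ℝ × ℝ => h z.1 / 2 := (w.cont.comp continuous_fst).div_const 2
  rw [Bil, ← integral_add (wint (G1_memLp w hV hW) (G1_memLp w hV' hW') hc)
    (wint (G2_memLp w hδ hW) (G2_memLp w hδ hW') hc)]
  congr 1
  ext z
  ring

theorem Bil_eq (w : Wt ℓ h) {δ : ℝ} (hδ : 0 < δ) {V W : ℝ × ℝ → ℝ}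
    (hV : MemLp V 2 (muT ℓ)) (hW : MemLp W 2 (muT ℓ)) :
    Bil ℓ h δ V W V W = E1 ℓ h V W + E2 ℓ h δ W := by
  rw [Bil_eq2 w hδ hV hW hV hW, E1, E2]
  simp only [pow_two]

theorem Bil_lim (w : Wt ℓ h) {δ : ℝ} (hδ : 0 < δ) {Vn Wn Vn' Wn' : ℕ → ℝ × ℝ → ℝ}
    {V W V' W' : ℝ × ℝ → ℝ} (hV : L2T (muT ℓ) Vn V) (hW : L2T (muT ℓ) Wn W)
    (hV' : L2T (muT ℓ) Vn' V') (hW' : L2T (muT ℓ) Wn' W') :
    Tendsto (fun n => Bil ℓ h δ (Vn n) (Wn n) (Vn' n) (Wn' n)) atTop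
      (𝓝 (Bil ℓ h δ V W V' W')) := by
  have hc : Continuous fun z : ℝ × ℝ => h z.1 / 2 := (w.cont.comp continuous_fst).div_const 2
  rw [Bil_eq2 w hδ hV.mg hW.mg hV'.mg hW'.mg]
  have := ((L2T_G1 w hV hW).winner (L2T_G1 w hV' hW') hc).add
    ((L2T_G2 w hδ hW).winner (L2T_G2 w hδ hW') hc)
  refine this.congr fun n => ?_
  rw [Bil_eq2 w hδ (hV.mf n) (hW.mf n) (hV'.mf n) (hW'.mf n)]

theorem cont_wt (w : Wt ℓ h) (δ : ℝ) : Continuous fun z : ℝ × ℝ => h z.1 * om ℓ h δ z / 2 :=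
  ((w.cont.comp continuous_fst).mul (cont_om w δ)).div_const 2

theorem Inu_sq_lim (w : Wt ℓ h) (δ : ℝ) {f : ℕ → ℝ × ℝ → ℝ} {g : ℝ × ℝ → ℝ}
    (hf : L2T (muT ℓ) f g) : Tendsto (fun n => Inu ℓ h δ fun z => f n z ^ 2) atTop
      (𝓝 (Inu ℓ h δ fun z => g z ^ 2)) := by
  have := hf.winner hf (cont_wt w δ)
  simpa only [Inu, pow_two] using this

theorem Inu_lim (w : Wt ℓ h) (δ : ℝ) {f : ℕ → ℝ × ℝ → ℝ} {g : ℝ × ℝ → ℝ}
    (hf : L2T (muT ℓ) f g) : Tendsto (fun n => Inu ℓ h δ (f n)) atTop (𝓝 (Inu ℓ h δ g)) := by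
  have := hf.winner (L2T.const (memLp_const (1:ℝ))) (cont_wt w δ)
  simpa only [Inu, mul_one] using this

theorem Inu_pow_lim (w : Wt ℓ h) (δ : ℝ) {p : ℝ} (hp : 0 < p) (hp1 : p < 1)
    {f : ℕ → ℝ × ℝ → ℝ} {g : ℝ × ℝ → ℝ} (hf : L2T (muT ℓ) f g) :
    Tendsto (fun n => Inu ℓ h δ fun z => |f n z| ^ (p + 1)) atTop
      (𝓝 (Inu ℓ h δ fun z => |g z| ^ (p + 1))) := by
  obtain ⟨K, -, -, hK⟩ := bdd_muT (cont_wt w δ) ℓ
  exact hf.pow hp hp1 (cont_wt w δ).aestronglyMeasurable K hK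

theorem wavg_lim {k : ℝ → ℝ} (hk : Measurable k) {K : ℝ} (hK : ∀ s, |k s| ≤ K)
    {f : ℕ → ℝ × ℝ → ℝ} {g : ℝ × ℝ → ℝ} (hf : L2T (muT ℓ) f g) :
    Tendsto (fun n => (∫ z, k z.1 * f n z ∂muT ℓ) / 2) atTop
      (𝓝 ((∫ z, k z.1 * g z ∂muT ℓ) / 2)) :=
  ((hf.bdd_mul (w := fun z => k z.1) (hk.comp measurable_fst).aestronglyMeasurable K
    (Eventually.of_forall fun z => hK z.1)).int).div_const 2

end forms

/-! ### the reduction for `C^1` functions -/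

section key

variable {ℓ : ℝ} {h : ℝ → ℝ}

theorem W_eq (w : Wt ℓ h) {δ : ℝ} (hδ : 0 < δ) (W : ℝ × ℝ → ℝ) (z : ℝ × ℝ) :
    W z = δ * h z.1 * G2 h δ W z := by
  have := w.pos z.1
  rw [G2]
  field_simp

theorem mono_strip {f g : ℝ × ℝ → ℝ} (hf : Continuous f) (hg : Continuous g)
    (hfg : ∀ z : ℝ × ℝ, z.1 ∈ Icc 0 ℓ → z.2 ∈ Icc (-1) 1 → f z ≤ g z) :
    ∫ z, f z ∂muT ℓ ≤ ∫ z, g z ∂muT ℓ := by
  refine integral_mono_ae (cont_int hf) (cont_int hg) ?_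
  filter_upwards [ae_muT ℓ] with z hz
  exact hfg z (Ioc_subset_Icc_self hz.1) (Ioo_subset_Icc_self hz.2)

theorem key1 (w : Wt ℓ h) {η : ℝ} (hη : 0 < η) : ∃ C, 0 ≤ C ∧ ∀ δ > 0, ∀ φ, C1per ℓ φ →
    En h (ub φ) 0 ℓ ≤ (1 + η) * E1 ℓ h (dS φ) (dY φ) + C * δ ^ 2 * E2 ℓ h δ (dY φ) := by
  obtain ⟨m, hm, K, hK, hb⟩ := w.bd
  refine ⟨(1 + 1 / η) * K ^ 4, by positivity, fun δ hδ φ hφ => ?_⟩
  have hcG1 : Continuous (G1 h (dS φ) (dY φ)) := by
    have h1 : G1 h (dS φ) (dY φ) = fun z => dS φ z - deriv h z.1 / h z.1 * z.2 * dY φ z := rfl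
    rw [h1]
    exact (cont_dS hφ).sub ((cont_c1 w).mul (cont_dY hφ))
  have hcG2 : Continuous (G2 h δ (dY φ)) := by
    rw [G2_eq]
    exact (cont_c2 w hδ).mul (cont_dY hφ)
  have hch : Continuous fun z : ℝ × ℝ => h z.1 / 2 := (w.cont.comp continuous_fst).div_const 2
  set A := 1 + η with hA
  set B := (1 + 1 / η) * K ^ 4 * δ ^ 2 with hB
  have hcF : Continuous fun z : ℝ × ℝ =>
      (A * G1 h (dS φ) (dY φ) z ^ 2 + B * G2 h δ (dY φ) z ^ 2) * (h z.1 / 2) :=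
    (((continuous_const.mul (hcG1.pow 2)).add (continuous_const.mul (hcG2.pow 2))).mul hch)
  have e1 : (1 + η) * E1 ℓ h (dS φ) (dY φ) + (1 + 1 / η) * K ^ 4 * δ ^ 2 * E2 ℓ h δ (dY φ) =
      ∫ z, (A * G1 h (dS φ) (dY φ) z ^ 2 + B * G2 h δ (dY φ) z ^ 2) * (h z.1 / 2) ∂muT ℓ := by
    rw [E1, E2, ← integral_const_mul, ← integral_const_mul, ← integral_add]
    · congr 1
      ext z
      ring
    · exact (cont_int ((hcG1.pow 2).mul hch)).const_mul _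
    · exact (cont_int ((hcG2.pow 2).mul hch)).const_mul _
  rw [e1, fub' w.hℓ.le hcF, En]
  apply intervalIntegral.integral_mono_on w.hℓ.le
  · have : Continuous fun r => h r * deriv (ub φ) r ^ 2 := by
      have h1 : deriv (ub φ) = ub (dS φ) := funext (deriv_ub hφ)
      rw [h1]
      exact w.cont.mul ((cont_ub (cont_dS hφ)).pow 2)
    exact this.intervalIntegrable _ _
  · exact (cont_ii hcF).intervalIntegrable _ _
  · intro s hs
    rw [deriv_ub hφ]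
    have hsy : Continuous fun y : ℝ => (s, y) := by fun_prop
    have c1 : Continuous fun y => G1 h (dS φ) (dY φ) (s, y) := hcG1.comp hsy
    have c2 : Continuous fun y => G2 h δ (dY φ) (s, y) := hcG2.comp hsy
    have c3 : Continuous fun y => deriv h s / h s * y * dY φ (s, y) :=
      (continuous_const.mul continuous_id).mul ((cont_dY hφ).comp hsy)
    have e2 : ub (dS φ) s = (∫ y in (-1:ℝ)..1, G1 h (dS φ) (dY φ) (s, y)) / 2 +
        (∫ y in (-1:ℝ)..1, deriv h s / h s * y * dY φ (s, y)) / 2 := by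
      rw [← add_div, ← intervalIntegral.integral_add (c1.intervalIntegrable _ _)
        (c3.intervalIntegrable _ _), ub]
      congr 1
      apply intervalIntegral.integral_congr
      intro y _
      simp only [G1]
      ring
    have e3 : ((∫ y in (-1:ℝ)..1, G1 h (dS φ) (dY φ) (s, y)) / 2) ^ 2 ≤
        (∫ y in (-1:ℝ)..1, G1 h (dS φ) (dY φ) (s, y) ^ 2) / 2 := by
      have := ii_sq c1
      rw [div_pow]
      linarith
    have e4 : ((∫ y in (-1:ℝ)..1, deriv h s / h s * y * dY φ (s, y)) / 2) ^ 2 ≤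
        K ^ 4 * δ ^ 2 * (∫ y in (-1:ℝ)..1, G2 h δ (dY φ) (s, y) ^ 2) / 2 := by
      have h1 := ii_sq c3
      have h2 : ∫ y in (-1:ℝ)..1, (deriv h s / h s * y * dY φ (s, y)) ^ 2 ≤
          ∫ y in (-1:ℝ)..1, K ^ 4 * δ ^ 2 * G2 h δ (dY φ) (s, y) ^ 2 := by
        apply intervalIntegral.integral_mono_on (by norm_num)
        · exact (c3.pow 2).intervalIntegrable _ _
        · exact (continuous_const.mul (c2.pow 2)).intervalIntegrable _ _
        · intro y hy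
          rw [W_eq w hδ (dY φ) (s, y)]
          obtain ⟨-, b1, b2⟩ := hb s hs
          have b3 : |y| ≤ 1 := abs_le.2 hy
          have b4 : |deriv h s / h s * y * (δ * h s * G2 h δ (dY φ) (s, y))| ≤
              K ^ 2 * δ * |G2 h δ (dY φ) (s, y)| := by
            rw [abs_mul, abs_mul, abs_mul, abs_of_pos (mul_pos hδ (w.pos s))]
            have hp := (w.pos s).le
            calc |deriv h s / h s| * |y| * (δ * h s * |G2 h δ (dY φ) (s, y)|)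
                ≤ K * 1 * (δ * K * |G2 h δ (dY φ) (s, y)|) := by gcongr
              _ = K ^ 2 * δ * |G2 h δ (dY φ) (s, y)| := by ring
          calc _ = |deriv h s / h s * y * (δ * h s * G2 h δ (dY φ) (s, y))| ^ 2 := (sq_abs _).symm
            _ ≤ (K ^ 2 * δ * |G2 h δ (dY φ) (s, y)|) ^ 2 := pow_le_pow_left₀ (abs_nonneg _) b4 2
            _ = _ := by rw [mul_pow, mul_pow, sq_abs]; ring
      rw [intervalIntegral.integral_const_mul] at h2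
      rw [div_pow]
      linarith
    have e5 : ∫ y in (-1:ℝ)..1, (A * G1 h (dS φ) (dY φ) (s, y) ^ 2 +
        B * G2 h δ (dY φ) (s, y) ^ 2) * (h (s, y).1 / 2) =
        (A * (∫ y in (-1:ℝ)..1, G1 h (dS φ) (dY φ) (s, y) ^ 2) +
          B * ∫ y in (-1:ℝ)..1, G2 h δ (dY φ) (s, y) ^ 2) * (h s / 2) := by
      rw [← intervalIntegral.integral_const_mul, ← intervalIntegral.integral_const_mul,
        ← intervalIntegral.integral_add, ← intervalIntegral.integral_mul_const]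
      · exact (continuous_const.mul (c1.pow 2)).intervalIntegrable _ _
      · exact (continuous_const.mul (c2.pow 2)).intervalIntegrable _ _
    rw [e5, e2]
    set a := (∫ y in (-1:ℝ)..1, G1 h (dS φ) (dY φ) (s, y)) / 2
    set b := (∫ y in (-1:ℝ)..1, deriv h s / h s * y * dY φ (s, y)) / 2
    have e6 : (a + b) ^ 2 ≤ (1 + η) * a ^ 2 + (1 + 1 / η) * b ^ 2 := by
      have h1 : 0 ≤ (η * a - b) ^ 2 / η := by positivity
      have h2 : (η * a - b) ^ 2 / η = η * a ^ 2 - 2 * (a * b) + 1 / η * b ^ 2 := by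
        field_simp
        ring
      nlinarith
    have e7 : (a + b) ^ 2 ≤ A * ((∫ y in (-1:ℝ)..1, G1 h (dS φ) (dY φ) (s, y) ^ 2) / 2) +
        (1 + 1 / η) * (K ^ 4 * δ ^ 2 *
          (∫ y in (-1:ℝ)..1, G2 h δ (dY φ) (s, y) ^ 2) / 2) := by
      have hη1 : 0 ≤ 1 + 1 / η := by positivity
      have hη2 : 0 ≤ 1 + η := by positivity
      calc (a + b) ^ 2 ≤ (1 + η) * a ^ 2 + (1 + 1 / η) * b ^ 2 := e6
        _ ≤ _ := add_le_add (mul_le_mul_of_nonneg_left e3 hη2)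
          (mul_le_mul_of_nonneg_left e4 hη1)
    calc h s * (a + b) ^ 2 ≤ h s * _ := mul_le_mul_of_nonneg_left e7 (w.pos s).le
      _ = _ := by rw [hB]; ring

theorem key2 (w : Wt ℓ h) : ∃ C, 0 ≤ C ∧ ∀ δ > 0, ∀ φ, C1per ℓ φ →
    ∫ z, (φ z - avY φ z) ^ 2 ∂muT ℓ ≤ C * δ ^ 2 * E2 ℓ h δ (dY φ) := by
  obtain ⟨m, hm, K, hK, hb⟩ := w.bd
  refine ⟨4 * (2 * K ^ 2 / m), by positivity, fun δ hδ φ hφ => ?_⟩
  refine (int_sub_avY w.hℓ.le hφ).trans ?_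
  have hcG2 : Continuous (G2 h δ (dY φ)) := by
    rw [G2_eq]
    exact (cont_c2 w hδ).mul (cont_dY hφ)
  have hch : Continuous fun z : ℝ × ℝ => h z.1 / 2 := (w.cont.comp continuous_fst).div_const 2
  have h1 : ∫ z, dY φ z ^ 2 ∂muT ℓ ≤
      ∫ z, 2 * K ^ 2 / m * δ ^ 2 * (G2 h δ (dY φ) z ^ 2 * (h z.1 / 2)) ∂muT ℓ := by
    apply mono_strip (f := fun z => dY φ z ^ 2)
      (g := fun z => 2 * K ^ 2 / m * δ ^ 2 * (G2 h δ (dY φ) z ^ 2 * (h z.1 / 2)))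
      ((cont_dY hφ).pow 2) (continuous_const.mul ((hcG2.pow 2).mul hch))
    intro z hz1 hz2
    obtain ⟨b0, b1, b2⟩ := hb _ hz1
    rw [W_eq w hδ (dY φ) z]
    have hp := w.pos z.1
    have h3 : h z.1 ^ 2 ≤ K ^ 2 := pow_le_pow_left₀ hp.le b1 2
    have h4 : 1 ≤ h z.1 / m := by rw [le_div_iff₀ hm]; linarith
    calc (δ * h z.1 * G2 h δ (dY φ) z) ^ 2 = δ ^ 2 * G2 h δ (dY φ) z ^ 2 * h z.1 ^ 2 := by ring
      _ ≤ δ ^ 2 * G2 h δ (dY φ) z ^ 2 * K ^ 2 := by gcongr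
      _ = δ ^ 2 * G2 h δ (dY φ) z ^ 2 * K ^ 2 * 1 := by ring
      _ ≤ δ ^ 2 * G2 h δ (dY φ) z ^ 2 * K ^ 2 * (h z.1 / m) := by gcongr
      _ = _ := by ring
  rw [integral_const_mul] at h1
  calc _ ≤ 4 * (2 * K ^ 2 / m * δ ^ 2 * ∫ z, G2 h δ (dY φ) z ^ 2 * (h z.1 / 2) ∂muT ℓ) := by
        linarith
    _ = _ := by rw [E2]; ring

/-- the mass: `∫ φ² h / 2 = ∫ h ub² + ∫ (φ - ub)² h / 2` -/
theorem mass_eq (w : Wt ℓ h) {φ : ℝ × ℝ → ℝ} (hφ : C1per ℓ φ) :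
    ∫ z, φ z ^ 2 * (h z.1 / 2) ∂muT ℓ =
      Sm h (ub φ) 0 ℓ + ∫ z, (φ z - avY φ z) ^ 2 * (h z.1 / 2) ∂muT ℓ := by
  have hch : Continuous fun z : ℝ × ℝ => h z.1 / 2 := (w.cont.comp continuous_fst).div_const 2
  have hφc := hφ.1.continuous
  have hac := (C1per_avY hφ).1.continuous
  have e1 := fub' w.hℓ.le (f := fun z => φ z ^ 2 * (h z.1 / 2)) ((hφc.pow 2).mul hch)
  have e2 := fub' w.hℓ.le (f := fun z => (φ z - avY φ z) ^ 2 * (h z.1 / 2))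
    (((hφc.sub hac).pow 2).mul hch)
  have c1 : Continuous fun s => h s * ub φ s ^ 2 := w.cont.mul ((cont_ub hφc).pow 2)
  have c2 : Continuous fun s => ∫ y in (-1:ℝ)..1, (φ (s, y) - avY φ (s, y)) ^ 2 *
      (h (s, y).1 / 2) :=
    cont_ii (f := fun z => (φ z - avY φ z) ^ 2 * (h z.1 / 2)) (((hφc.sub hac).pow 2).mul hch)
  rw [e1, e2, Sm, ← intervalIntegral.integral_add (c1.intervalIntegrable _ _)
    (c2.intervalIntegrable _ _)]
  congr 1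
  ext s
  have hsy : Continuous fun y : ℝ => (s, y) := by fun_prop
  have e4 : ∫ y in (-1:ℝ)..1, φ (s, y) ^ 2 * (h (s, y).1 / 2) =
      (∫ y in (-1:ℝ)..1, φ (s, y) ^ 2) * (h s / 2) :=
    intervalIntegral.integral_mul_const (h s / 2) (fun y => φ (s, y) ^ 2)
  have e3 : ∫ y in (-1:ℝ)..1, (φ (s, y) - avY φ (s, y)) ^ 2 * (h (s, y).1 / 2) =
      (∫ y in (-1:ℝ)..1, (φ (s, y) - ub φ s) ^ 2) * (h s / 2) :=
    intervalIntegral.integral_mul_const (h s / 2) (fun y => (φ (s, y) - ub φ s) ^ 2)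
  have hcs : Continuous fun y : ℝ => φ (s, y) := hφc.comp hsy
  rw [e3, e4, ii_var hcs]
  change (2 * ub φ s ^ 2 + ∫ y in (-1:ℝ)..1, (φ (s, y) - ub φ s) ^ 2) * (h s / 2) = _
  ring

/-- comparison of `Inu` with `∫ f h / 2` -/
theorem Inu_close (w : Wt ℓ h) {η : ℝ} (hη : 0 < η) : ∀ᶠ δ in 𝓝[>] (0:ℝ),
    ∀ f : ℝ × ℝ → ℝ, Continuous f → (∀ z, 0 ≤ f z) →
      Inu ℓ h δ f ≤ (1 + η) * ∫ z, f z * (h z.1 / 2) ∂muT ℓ ∧
      ∫ z, f z * (h z.1 / 2) ∂muT ℓ ≤ (1 + η) * Inu ℓ h δ f := by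
  have hη' : 0 < min η (1 / 2) * (1 / 2) := by positivity
  have hmin : min η (1 / 2) ≤ η := min_le_left _ _
  have hmin2 : min η (1 / 2) ≤ 1 / 2 := min_le_right _ _
  have hmin0 : 0 < min η (1 / 2) := by positivity
  filter_upwards [om_close w hη'] with δ hδ f hf hf0
  set t := min η (1 / 2) with ht
  have hch : Continuous fun z : ℝ × ℝ => h z.1 / 2 := (w.cont.comp continuous_fst).div_const 2
  have hcw := cont_wt w δ
  rw [Inu, ← integral_const_mul, ← integral_const_mul]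
  constructor
  · apply mono_strip (f := fun z => f z * (h z.1 * om ℓ h δ z / 2))
      (g := fun z => (1 + η) * (f z * (h z.1 / 2))) (hf.mul hcw) (continuous_const.mul (hf.mul hch))
    intro z h1 h2
    have h3 := (abs_le.1 (hδ z h1 h2)).2
    have h4 : om ℓ h δ z ≤ 1 + η := by linarith
    have h5 : 0 ≤ f z * (h z.1 / 2) := mul_nonneg (hf0 z) (by linarith [w.pos z.1])
    calc f z * (h z.1 * om ℓ h δ z / 2) = f z * (h z.1 / 2) * om ℓ h δ z := by ring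
      _ ≤ f z * (h z.1 / 2) * (1 + η) := mul_le_mul_of_nonneg_left h4 h5
      _ = _ := by ring
  · apply mono_strip (f := fun z => f z * (h z.1 / 2))
      (g := fun z => (1 + η) * (f z * (h z.1 * om ℓ h δ z / 2)))
      (hf.mul hch) (continuous_const.mul (hf.mul hcw))
    intro z h1 h2
    have h3 := (abs_le.1 (hδ z h1 h2)).1
    have h4 : 1 - t * (1 / 2) ≤ om ℓ h δ z := by linarith
    have h5 : 0 ≤ f z * (h z.1 / 2) := mul_nonneg (hf0 z) (by linarith [w.pos z.1])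
    have h6 : 1 ≤ (1 + η) * om ℓ h δ z := by nlinarith
    calc f z * (h z.1 / 2) = f z * (h z.1 / 2) * 1 := by ring
      _ ≤ f z * (h z.1 / 2) * ((1 + η) * om ℓ h δ z) := mul_le_mul_of_nonneg_left h6 h5
      _ = _ := by ring

/-- **Key lemma** -/
theorem key (w : Wt ℓ h) {η : ℝ} (hη : 0 < η) : ∀ᶠ δ in 𝓝[>] (0:ℝ), 0 < δ ∧ ∀ φ, C1per ℓ φ →
    En h (ub φ) 0 ℓ ≤ (1 + η) * Bil ℓ h δ (dS φ) (dY φ) (dS φ) (dY φ) ∧
    ∫ z, (φ z - avY φ z) ^ 2 ∂muT ℓ ≤ η * Bil ℓ h δ (dS φ) (dY φ) (dS φ) (dY φ) ∧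
    Inu ℓ h δ (fun z => φ z ^ 2) ≤ (1 + η) * Sm h (ub φ) 0 ℓ +
      η * Bil ℓ h δ (dS φ) (dY φ) (dS φ) (dY φ) := by
  obtain ⟨m, hm, K, hK, hb⟩ := w.bd
  obtain ⟨C1, hC1, k1⟩ := key1 w hη
  obtain ⟨C2, hC2, k2⟩ := key2 w
  have hsq : Tendsto (fun δ : ℝ => δ ^ 2) (𝓝[>] 0) (𝓝 0) := by
    have : Tendsto (fun δ : ℝ => δ ^ 2) (𝓝 0) (𝓝 (0 ^ 2)) := (continuous_pow 2).tendsto 0
    simpa using this.mono_left nhdsWithin_le_nhds
  have l1 : ∀ᶠ δ in 𝓝[>] (0:ℝ), C1 * δ ^ 2 ≤ 1 := by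
    have : Tendsto (fun δ : ℝ => C1 * δ ^ 2) (𝓝[>] 0) (𝓝 0) := by simpa using hsq.const_mul C1
    filter_upwards [this.eventually (eventually_lt_nhds zero_lt_one)] with δ h using h.le
  have l2 : ∀ᶠ δ in 𝓝[>] (0:ℝ), C2 * δ ^ 2 ≤ η := by
    have : Tendsto (fun δ : ℝ => C2 * δ ^ 2) (𝓝[>] 0) (𝓝 0) := by simpa using hsq.const_mul C2
    filter_upwards [this.eventually (eventually_lt_nhds hη)] with δ h using h.le
  have l3 : ∀ᶠ δ in 𝓝[>] (0:ℝ), (1 + η) * (K / 2) * (C2 * δ ^ 2) ≤ η := by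
    have : Tendsto (fun δ : ℝ => (1 + η) * (K / 2) * (C2 * δ ^ 2)) (𝓝[>] 0) (𝓝 0) := by
      simpa using (hsq.const_mul C2).const_mul ((1 + η) * (K / 2))
    filter_upwards [this.eventually (eventually_lt_nhds hη)] with δ h using h.le
  filter_upwards [l1, l2, l3, Inu_close w hη, self_mem_nhdsWithin] with δ h1 h2 h3 h4 h5
  have hδ : 0 < δ := h5
  refine ⟨hδ, fun φ hφ => ?_⟩
  have mV : MemLp (dS φ) 2 (muT ℓ) := cont_memLp (cont_dS hφ)
  have mW : MemLp (dY φ) 2 (muT ℓ) := cont_memLp (cont_dY hφ)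
  have n1 := E1_nonneg w (dS φ) (dY φ)
  have n2 := E2_nonneg w δ (dY φ)
  rw [Bil_eq w hδ mV mW]
  set e1 := E1 ℓ h (dS φ) (dY φ)
  set e2 := E2 ℓ h δ (dY φ)
  have r2 := k2 δ hδ φ hφ
  refine ⟨?_, ?_, ?_⟩
  · have := k1 δ hδ φ hφ
    nlinarith [mul_le_mul_of_nonneg_right h1 n2, mul_nonneg hη.le n2]
  · nlinarith [mul_le_mul_of_nonneg_right h2 n2, mul_nonneg hη.le n1]
  · have hφc := hφ.1.continuous
    have hac := (C1per_avY hφ).1.continuous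
    have hch : Continuous fun z : ℝ × ℝ => h z.1 / 2 := (w.cont.comp continuous_fst).div_const 2
    have r1 := (h4 (fun z => φ z ^ 2) (hφc.pow 2) fun z => sq_nonneg _).1
    rw [mass_eq w hφ] at r1
    have r3 : ∫ z, (φ z - avY φ z) ^ 2 * (h z.1 / 2) ∂muT ℓ ≤
        ∫ z, K / 2 * (φ z - avY φ z) ^ 2 ∂muT ℓ := by
      apply mono_strip (f := fun z => (φ z - avY φ z) ^ 2 * (h z.1 / 2))
        (g := fun z => K / 2 * (φ z - avY φ z) ^ 2) (((hφc.sub hac).pow 2).mul hch)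
        (continuous_const.mul ((hφc.sub hac).pow 2))
      intro z hz1 hz2
      have := (hb _ hz1).2.1
      nlinarith [sq_nonneg (φ z - avY φ z)]
    rw [integral_const_mul] at r3
    have r4 : (1 + η) * ∫ z, (φ z - avY φ z) ^ 2 * (h z.1 / 2) ∂muT ℓ ≤
        (1 + η) * (K / 2) * (C2 * δ ^ 2) * e2 := by
      calc _ ≤ (1 + η) * (K / 2 * (C2 * δ ^ 2 * e2)) := by
            apply mul_le_mul_of_nonneg_left _ (by positivity)
            exact r3.trans (mul_le_mul_of_nonneg_left r2 (by positivity))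
        _ = _ := by ring
    have r5 := mul_le_mul_of_nonneg_right h3 n2
    nlinarith [mul_nonneg hη.le n1]

end key

/-! ### transfer to the ring -/

section ring

variable {p l0 l1 l3 : ℝ} (R : Ring1D p l0 l1 l3)

theorem wt : Wt R.ℓ R.h := ⟨R.hℓ, R.smooth, R.per, R.pos⟩

theorem a_eq {k : ℝ → ℝ} {K : ℝ} (hk : Measurable k) (hK : ∀ s, |k s| ≤ K) {φ : ℝ × ℝ → ℝ}
    (hφ : C1per R.ℓ φ) : (∫ z, k z.1 * φ z ∂muT R.ℓ) / 2 = ∫ s in (0:ℝ)..R.ℓ, k s * ub φ s := by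
  have hi : Integrable (fun z => k z.1 * φ z) (muT R.ℓ) :=
    (cont_int hφ.1.continuous).bdd_mul (hk.comp measurable_fst).aestronglyMeasurable
      (Eventually.of_forall fun z => hK z.1)
  rw [fub R.hℓ.le hi, ← intervalIntegral.integral_div]
  congr 1
  ext s
  have e : ∫ y in (-1:ℝ)..1, k (s, y).1 * φ (s, y) = k s * ∫ y in (-1:ℝ)..1, φ (s, y) :=
    intervalIntegral.integral_const_mul (k s) (fun y => φ (s, y))
  rw [e, ub]
  ring

theorem bdd_wa : ∃ K, (∀ s, |R.wa s| ≤ K) ∧ ∀ s, |R.wb s| ≤ K := by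
  obtain ⟨K, hK⟩ := R.wab
  refine ⟨K, fun s => ?_, fun s => ?_⟩
  · rw [abs_of_nonneg (R.wa0 s)]
    exact (hK s).1
  · rw [abs_of_nonneg (R.wb0 s)]
    exact (hK s).2

theorem a2_eq {φ : ℝ × ℝ → ℝ} (hφ : C1per R.ℓ φ) :
    R.a2 φ = ∫ s in (0:ℝ)..R.ℓ, R.wa s * ub φ s := by
  obtain ⟨K, h1, -⟩ := bdd_wa R
  exact a_eq R R.wam h1 hφ

theorem b2_eq {φ : ℝ × ℝ → ℝ} (hφ : C1per R.ℓ φ) :
    R.b2 φ = ∫ s in (0:ℝ)..R.ℓ, R.wb s * ub φ s := by
  obtain ⟨K, -, h1⟩ := bdd_wa R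
  exact a_eq R R.wbm h1 hφ

theorem a2_lim {f : ℕ → ℝ × ℝ → ℝ} {g : ℝ × ℝ → ℝ} (hf : L2T (muT R.ℓ) f g) :
    Tendsto (fun n => R.a2 (f n)) atTop (𝓝 (R.a2 g)) := by
  obtain ⟨K, h1, -⟩ := bdd_wa R
  exact wavg_lim R.wam h1 hf

theorem b2_lim {f : ℕ → ℝ × ℝ → ℝ} {g : ℝ × ℝ → ℝ} (hf : L2T (muT R.ℓ) f g) :
    Tendsto (fun n => R.b2 (f n)) atTop (𝓝 (R.b2 g)) := by
  obtain ⟨K, -, h1⟩ := bdd_wa R
  exact wavg_lim R.wbm h1 hf

/-- `∫ U² = 2 ∫ ub² + ∫ (U - ub)²` -/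
theorem plain_mass {ℓ : ℝ} (hℓ : 0 ≤ ℓ) {φ : ℝ × ℝ → ℝ} (hφ : C1per ℓ φ) :
    ∫ z, φ z ^ 2 ∂muT ℓ = 2 * (∫ s in (0:ℝ)..ℓ, ub φ s ^ 2) +
      ∫ z, (φ z - avY φ z) ^ 2 ∂muT ℓ := by
  have hφc := hφ.1.continuous
  have hac := (C1per_avY hφ).1.continuous
  have e1 := fub' hℓ (f := fun z => φ z ^ 2) (hφc.pow 2)
  have e2 := fub' hℓ (f := fun z => (φ z - avY φ z) ^ 2) ((hφc.sub hac).pow 2)
  have c1 : Continuous fun s => 2 * ub φ s ^ 2 := continuous_const.mul ((cont_ub hφc).pow 2)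
  have c2 : Continuous fun s => ∫ y in (-1:ℝ)..1, (φ (s, y) - avY φ (s, y)) ^ 2 :=
    cont_ii (f := fun z => (φ z - avY φ z) ^ 2) ((hφc.sub hac).pow 2)
  rw [e1, e2, ← intervalIntegral.integral_const_mul,
    ← intervalIntegral.integral_add (c1.intervalIntegrable _ _) (c2.intervalIntegrable _ _)]
  congr 1
  ext s
  have hsy : Continuous fun y : ℝ => (s, y) := by fun_prop
  exact ii_var (hφc.comp hsy)

theorem Bil_nonneg {ℓ : ℝ} {h : ℝ → ℝ} (w : Wt ℓ h) (δ : ℝ) (V W : ℝ × ℝ → ℝ) :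
    0 ≤ Bil ℓ h δ V W V W :=
  integral_nonneg fun z => mul_nonneg (add_nonneg (mul_self_nonneg _) (mul_self_nonneg _))
    (by linarith [w.pos z.1])

theorem Sm_nonneg {ℓ : ℝ} {h : ℝ → ℝ} (w : Wt ℓ h) (u : ℝ → ℝ) : 0 ≤ Sm h u 0 ℓ :=
  intervalIntegral.integral_nonneg w.hℓ.le fun s _ => mul_nonneg (w.pos s).le (sq_nonneg _)

theorem coer2D : Coer2D := by
  intro p l0 l1 l3 R l2 hl2 hl23
  have w := wt R
  obtain ⟨c0, hc0, C0', hco⟩ := R.coer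
  set C0 := max C0' 1 with hC0
  have hC0p : 0 < C0 := by positivity
  have hl3 : 0 < l3 := hl2.trans hl23
  -- choose η
  have hθ : l2 / l3 < 1 := (div_lt_one hl3).2 hl23
  obtain ⟨η, hη, hη1, hηc⟩ : ∃ η > 0, η ≤ 1 ∧
      0 < 1 - l2 * η - l2 / l3 * (1 + η) ^ 2 := by
    have hcont : Tendsto (fun η : ℝ => 1 - l2 * η - l2 / l3 * (1 + η) ^ 2) (𝓝[>] 0)
        (𝓝 (1 - l2 * 0 - l2 / l3 * (1 + 0) ^ 2)) := by
      apply Tendsto.mono_left _ nhdsWithin_le_nhds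
      apply Continuous.tendsto
      fun_prop
    have h1 : ∀ᶠ η in 𝓝[>] (0:ℝ), 0 < 1 - l2 * η - l2 / l3 * (1 + η) ^ 2 :=
      hcont.eventually (eventually_gt_nhds (by simpa using hθ))
    have h2 : ∀ᶠ η in 𝓝[>] (0:ℝ), η < 1 :=
      (eventually_lt_nhds one_pos).filter_mono nhdsWithin_le_nhds
    obtain ⟨η, h3, h4, h5⟩ := (h1.and (h2.and self_mem_nhdsWithin)).exists
    exact ⟨η, h5, h4.le, h3⟩
  set c1 := 1 - l2 * η - l2 / l3 * (1 + η) ^ 2 with hc1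
  set t := l2 * (1 + η) / l3 with ht
  have htp : 0 < t := by positivity
  set c := min (c1 / 2) (min (t * c0 / 2) (c1 / 4)) with hc
  have hcp : 0 < c := by positivity
  refine ⟨c, hcp, t * C0, by positivity, ?_⟩
  filter_upwards [key w hη] with δ hδ U V W hU
  obtain ⟨hδ0, hδ⟩ := hδ
  obtain ⟨φ, hφ, k1, k2, k3⟩ := exists_L2T hU
  -- for C1per
  have main : ∀ φ, C1per R.ℓ φ →
      c * ((∫ z, φ z ^ 2 ∂muT R.ℓ) + Bil R.ℓ R.h δ (dS φ) (dY φ) (dS φ) (dY φ))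
      ≤ Bil R.ℓ R.h δ (dS φ) (dY φ) (dS φ) (dY φ) - l2 * Inu R.ℓ R.h δ (fun z => φ z ^ 2)
        + t * C0 * (R.a2 φ ^ 2 + R.b2 φ ^ 2) := by
    intro φ hφ
    obtain ⟨r1, r2, r3⟩ := hδ φ hφ
    have r4 := hco (ub φ) (C1p_ub hφ)
    rw [← a2_eq R hφ, ← b2_eq R hφ] at r4
    rw [plain_mass R.hℓ.le hφ]
    have q1 := Bil_nonneg w δ (dS φ) (dY φ)
    have q2 := Sm_nonneg w (ub φ)
    have q3 : 0 ≤ ∫ s in (0:ℝ)..R.ℓ, ub φ s ^ 2 :=
      intervalIntegral.integral_nonneg R.hℓ.le fun s _ => sq_nonneg _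
    have q4 : 0 ≤ ∫ s in (0:ℝ)..R.ℓ, deriv (ub φ) s ^ 2 :=
      intervalIntegral.integral_nonneg R.hℓ.le fun s _ => sq_nonneg _
    have q5 : 0 ≤ R.a2 φ ^ 2 + R.b2 φ ^ 2 := by positivity
    set B := Bil R.ℓ R.h δ (dS φ) (dY φ) (dS φ) (dY φ)
    set I := ∫ s in (0:ℝ)..R.ℓ, ub φ s ^ 2
    set S := Sm R.h (ub φ) 0 R.ℓ
    set E := En R.h (ub φ) 0 R.ℓ
    set X := R.a2 φ ^ 2 + R.b2 φ ^ 2
    set D := ∫ z, (φ z - avY φ z) ^ 2 ∂muT R.ℓ
    have r5 : l3 * S ≤ E - c0 * I + C0 * X := by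
      have : C0' * X ≤ C0 * X := mul_le_mul_of_nonneg_right (le_max_left _ _) q5
      nlinarith [mul_nonneg hc0.le q4]
    have r6 : l2 * (1 + η) * S ≤ t * (E - c0 * I + C0 * X) := by
      have : l2 * (1 + η) * S = t * (l3 * S) := by
        rw [ht]
        field_simp
      rw [this]
      exact mul_le_mul_of_nonneg_left r5 htp.le
    have r7 : t * E ≤ t * ((1 + η) * B) := mul_le_mul_of_nonneg_left r1 htp.le
    have r8 : t * ((1 + η) * B) = l2 / l3 * (1 + η) ^ 2 * B := by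
      rw [ht]
      ring
    have r9 : l2 * Inu R.ℓ R.h δ (fun z => φ z ^ 2) ≤ l2 * ((1 + η) * S + η * B) :=
      mul_le_mul_of_nonneg_left r3 hl2.le
    have r10 : c1 * B + t * c0 * I ≤ B - l2 * Inu R.ℓ R.h δ (fun z => φ z ^ 2) + t * C0 * X := by
      rw [hc1]
      nlinarith
    refine le_trans ?_ r10
    have s1 : c ≤ c1 / 4 := (min_le_right _ _).trans (min_le_right _ _)
    have s2 : c ≤ t * c0 / 2 := (min_le_right _ _).trans (min_le_left _ _)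
    have s3 : c * (2 * I) ≤ t * c0 / 2 * (2 * I) := mul_le_mul_of_nonneg_right s2 (by positivity)
    have s4 : c * (D + B) ≤ c1 / 4 * (2 * B) := by
      have : D + B ≤ 2 * B := by nlinarith
      exact mul_le_mul s1 this (by
        have : 0 ≤ D := integral_nonneg fun _ => sq_nonneg _
        linarith) (by linarith)
    have hc1p : 0 ≤ c1 := hηc.le
    nlinarith [mul_nonneg hc1p q1]
  have t1 := ((k1.sq).add (Bil_lim w hδ0 k2 k3 k2 k3)).const_mul c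
  have t2 := ((Bil_lim w hδ0 k2 k3 k2 k3).sub ((Inu_sq_lim w δ k1).const_mul l2)).add
    ((((a2_lim R k1).pow 2).add ((b2_lim R k1).pow 2)).const_mul (t * C0))
  exact le_of_tendsto_of_tendsto' t1 t2 fun n => main (φ n) (hφ n)

theorem w12D : W12D := by
  intro p l0 l1 l3 R K hK η hη
  have w := wt R
  have hl0 := R.hl0
  obtain ⟨m, hm, M, hM, hb⟩ := w.bd
  -- a small number
  set K' := K + 1 with hK'
  have hK'p : 0 < K' := by linarith
  obtain ⟨ε, hε, hε1, hεη, hεc⟩ : ∃ ε > 0, ε ≤ 1 ∧ ε ≤ η ∧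
      l0 * ε * (M * K') + l0 * ε * K' + 2 * ε * K' ≤ η := by
    have hcont : Tendsto (fun ε : ℝ => l0 * ε * (M * K') + l0 * ε * K' + 2 * ε * K') (𝓝[>] 0)
        (𝓝 (l0 * 0 * (M * K') + l0 * 0 * K' + 2 * 0 * K')) := by
      apply Tendsto.mono_left _ nhdsWithin_le_nhds
      apply Continuous.tendsto
      fun_prop
    have h1 : ∀ᶠ ε in 𝓝[>] (0:ℝ), l0 * ε * (M * K') + l0 * ε * K' + 2 * ε * K' < η :=
      hcont.eventually (eventually_lt_nhds (by simpa using hη))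
    have h2 : ∀ᶠ ε in 𝓝[>] (0:ℝ), ε < 1 :=
      (eventually_lt_nhds one_pos).filter_mono nhdsWithin_le_nhds
    have h2' : ∀ᶠ ε in 𝓝[>] (0:ℝ), ε < η :=
      (eventually_lt_nhds hη).filter_mono nhdsWithin_le_nhds
    obtain ⟨ε, h3, h4, h6, h5⟩ := (h1.and (h2.and (h2'.and self_mem_nhdsWithin))).exists
    exact ⟨ε, h5, h4.le, h6.le, h3.le⟩
  filter_upwards [key w hε, Inu_close w hε] with δ hδ hI U V W hU
  obtain ⟨hδ0, hδ⟩ := hδ
  obtain ⟨φ, hφ, k1, k2, k3⟩ := exists_L2T hU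
  have hp0 := R.hp0
  have hp1 := R.hp1
  refine ⟨?_, ?_⟩
  · have main : ∀ φ, C1per R.ℓ φ → R.NH * |R.a2 φ| ^ (p + 1) + R.NL * |R.b2 φ| ^ (p + 1)
        ≤ (1 + η) * Inu R.ℓ R.h δ (fun z => |φ z| ^ (p + 1)) := by
      intro φ hφ
      have r1 := R.J (ub φ) (C1p_ub hφ)
      rw [← a2_eq R hφ, ← b2_eq R hφ] at r1
      refine r1.trans ?_
      have hφc := hφ.1.continuous
      have hc : Continuous fun z => |φ z| ^ (p + 1) :=
        hφc.abs.rpow_const fun _ => Or.inr (by linarith)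
      have r2 := (hI _ hc fun z => Real.rpow_nonneg (abs_nonneg _) _).2
      have r0 : 0 ≤ Inu R.ℓ R.h δ (fun z => |φ z| ^ (p + 1)) :=
        integral_nonneg fun z => mul_nonneg (Real.rpow_nonneg (abs_nonneg _) _) (by
          have := mul_pos (w.pos z.1) (om_pos (ℓ := R.ℓ) (h := R.h) δ z)
          linarith)
      have r3 : Zm p R.h (ub φ) 0 R.ℓ ≤ ∫ z, |φ z| ^ (p + 1) * (R.h z.1 / 2) ∂muT R.ℓ := by
        have hch : Continuous fun z : ℝ × ℝ => R.h z.1 / 2 :=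
          (w.cont.comp continuous_fst).div_const 2
        have e1 := fub' R.hℓ.le (f := fun z => |φ z| ^ (p + 1) * (R.h z.1 / 2)) (hc.mul hch)
        rw [e1, Zm]
        apply intervalIntegral.integral_mono_on R.hℓ.le
        · exact (w.cont.mul ((cont_ub hφc).abs.rpow_const
            fun _ => Or.inr (by linarith))).intervalIntegrable _ _
        · exact (cont_ii (f := fun z => |φ z| ^ (p + 1) * (R.h z.1 / 2))
            (hc.mul hch)).intervalIntegrable _ _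
        · intro s hs
          have hsy : Continuous fun y : ℝ => (s, y) := by fun_prop
          have e4 : ∫ y in (-1:ℝ)..1, |φ (s, y)| ^ (p + 1) * (R.h (s, y).1 / 2) =
              (∫ y in (-1:ℝ)..1, |φ (s, y)| ^ (p + 1)) * (R.h s / 2) :=
            intervalIntegral.integral_mul_const (R.h s / 2) (fun y => |φ (s, y)| ^ (p + 1))
          rw [e4]
          have e5 := ii_pow hp0 (hφc.comp hsy)
          have e6 : |ub φ s| ^ (p + 1) ≤ (∫ y in (-1:ℝ)..1, |φ (s, y)| ^ (p + 1)) / 2 := e5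
          nlinarith [mul_le_mul_of_nonneg_left e6 (w.pos s).le]
      calc _ ≤ _ := r3
        _ ≤ (1 + ε) * Inu R.ℓ R.h δ (fun z => |φ z| ^ (p + 1)) := r2
        _ ≤ _ := mul_le_mul_of_nonneg_right (by linarith) r0
    have hcp : Continuous fun x : ℝ => |x| ^ (p + 1) :=
      continuous_abs.rpow_const fun _ => Or.inr (by linarith)
    have t1 := (((hcp.tendsto _).comp (a2_lim R k1)).const_mul R.NH).add
      (((hcp.tendsto _).comp (b2_lim R k1)).const_mul R.NL)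
    have t2 := (Inu_pow_lim w δ hp0 hp1 k1).const_mul (1 + η)
    exact le_of_tendsto_of_tendsto' t1 t2 fun n => main (φ n) (hφ n)
  · intro hUK hBK
    have main : ∀ φ, C1per R.ℓ φ → ∫ z, φ z ^ 2 ∂muT R.ℓ ≤ K' →
        Bil R.ℓ R.h δ (dS φ) (dY φ) (dS φ) (dY φ) ≤ K' →
        l0 * Inu R.ℓ R.h δ (fun z => φ z ^ 2) - Bil R.ℓ R.h δ (dS φ) (dY φ) (dS φ) (dY φ)
        ≤ R.Q (R.a2 φ) (R.b2 φ) + η := by
      intro φ hφ h1 h2
      obtain ⟨r1, r2, r3⟩ := hδ φ hφ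
      have r4 := R.W1 (ub φ) (C1p_ub hφ)
      rw [← a2_eq R hφ, ← b2_eq R hφ] at r4
      have q1 := Bil_nonneg w δ (dS φ) (dY φ)
      have q2 := Sm_nonneg w (ub φ)
      have q3 : Sm R.h (ub φ) 0 R.ℓ ≤ M * K' := by
        have hφc := hφ.1.continuous
        have hac := (C1per_avY hφ).1.continuous
        have hch : Continuous fun z : ℝ × ℝ => R.h z.1 / 2 :=
          (w.cont.comp continuous_fst).div_const 2
        have e1 := mass_eq w hφ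
        have e2 : 0 ≤ ∫ z, (φ z - avY φ z) ^ 2 * (R.h z.1 / 2) ∂muT R.ℓ :=
          integral_nonneg fun z => mul_nonneg (sq_nonneg _) (by linarith [w.pos z.1])
        have e3 : ∫ z, φ z ^ 2 * (R.h z.1 / 2) ∂muT R.ℓ ≤ ∫ z, M * φ z ^ 2 ∂muT R.ℓ := by
          apply mono_strip (f := fun z => φ z ^ 2 * (R.h z.1 / 2)) (g := fun z => M * φ z ^ 2)
            ((hφc.pow 2).mul hch) (continuous_const.mul (hφc.pow 2))
          intro z hz1 hz2
          have := (hb _ hz1).2.1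
          nlinarith [sq_nonneg (φ z), w.pos z.1]
        rw [integral_const_mul] at e3
        nlinarith
      set B := Bil R.ℓ R.h δ (dS φ) (dY φ) (dS φ) (dY φ)
      set S := Sm R.h (ub φ) 0 R.ℓ
      set E := En R.h (ub φ) 0 R.ℓ
      have r5 : l0 * Inu R.ℓ R.h δ (fun z => φ z ^ 2) ≤ l0 * ((1 + ε) * S + ε * B) :=
        mul_le_mul_of_nonneg_left r3 hl0.le
      have r6 : l0 * ε * S ≤ l0 * ε * (M * K') := mul_le_mul_of_nonneg_left q3 (by positivity)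
      have r7 : l0 * ε * B ≤ l0 * ε * K' := mul_le_mul_of_nonneg_left h2 (by positivity)
      have r8 : ε * B ≤ 2 * ε * K' := by nlinarith
      nlinarith
    have ev1 : ∀ᶠ n in atTop, ∫ z, φ n z ^ 2 ∂muT R.ℓ ≤ K' := by
      filter_upwards [k1.sq.eventually (eventually_lt_nhds (by linarith :
        ∫ z, U z ^ 2 ∂muT R.ℓ < K'))] with n hn using hn.le
    have ev2 : ∀ᶠ n in atTop, Bil R.ℓ R.h δ (dS (φ n)) (dY (φ n)) (dS (φ n)) (dY (φ n)) ≤ K' := by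
      filter_upwards [(Bil_lim w hδ0 k2 k3 k2 k3).eventually (eventually_lt_nhds (by linarith :
        Bil R.ℓ R.h δ V W V W < K'))] with n hn using hn.le
    have t1 := ((Inu_sq_lim w δ k1).const_mul l0).sub (Bil_lim w hδ0 k2 k3 k2 k3)
    have t2 := ((R.Qc.tendsto (R.a2 U, R.b2 U)).comp
      ((a2_lim R k1).prodMk_nhds (b2_lim R k1))).add_const η
    refine le_of_tendsto_of_tendsto t1 t2 ?_
    filter_upwards [ev1, ev2] with n h1 h2
    exact main (φ n) (hφ n) h1 h2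

theorem t42D : T42D := by
  intro p l0 l1 l3 R l hl
  have w := wt R
  have hl4 : 0 < R.l4 := lt_trans (mul_pos (by linarith [R.hp1]) (R.hl0.trans R.hl01)) R.hl4
  set l' := max l (R.l4 / 2) with hl'
  have hl'p : 0 < l' := lt_max_of_lt_right (by linarith)
  have hl'4 : l' < R.l4 := max_lt hl (by linarith)
  have hθ : l' / R.l4 < 1 := (div_lt_one hl4).2 hl'4
  obtain ⟨η, hη, hη1, hηc⟩ : ∃ η > 0, η ≤ 1 ∧
      l' * η + l' / R.l4 * (1 + η) ^ 2 ≤ 1 := by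
    have hcont : Tendsto (fun η : ℝ => l' * η + l' / R.l4 * (1 + η) ^ 2) (𝓝[>] 0)
        (𝓝 (l' * 0 + l' / R.l4 * (1 + 0) ^ 2)) := by
      apply Tendsto.mono_left _ nhdsWithin_le_nhds
      apply Continuous.tendsto
      fun_prop
    have h1 : ∀ᶠ η in 𝓝[>] (0:ℝ), l' * η + l' / R.l4 * (1 + η) ^ 2 < 1 :=
      hcont.eventually (eventually_lt_nhds (by simpa using hθ))
    have h2 : ∀ᶠ η in 𝓝[>] (0:ℝ), η < 1 :=
      (eventually_lt_nhds one_pos).filter_mono nhdsWithin_le_nhds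
    obtain ⟨η, h3, h4, h5⟩ := (h1.and (h2.and self_mem_nhdsWithin)).exists
    exact ⟨η, h5, h4.le, h3.le⟩
  filter_upwards [key w hη] with δ hδ U V W hU
  obtain ⟨hδ0, hδ⟩ := hδ
  obtain ⟨φ, hφ, k1, k2, k3⟩ := exists_L2T hU
  set N := Inu R.ℓ R.h δ (fun _ => 1) with hN
  have hcw := cont_wt w δ
  have hNp : 0 < N := by
    rw [hN, Inu]
    simp only [one_mul]
    obtain ⟨m, hm, M, hM, hb⟩ := w.bd
    have e1 := fub' R.hℓ.le hcw
    rw [e1]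
    apply intervalIntegral.intervalIntegral_pos_of_pos_on ((cont_ii hcw).intervalIntegrable _ _) _
      R.hℓ
    intro s _
    apply intervalIntegral.intervalIntegral_pos_of_pos_on _ _ (by norm_num)
    · exact (hcw.comp (by fun_prop : Continuous fun y : ℝ => (s, y))).intervalIntegrable _ _
    · intro y _
      have := mul_pos (w.pos s) (om_pos (ℓ := R.ℓ) (h := R.h) δ (s, y))
      change 0 < R.h s * om R.ℓ R.h δ (s, y) / 2
      linarith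
  -- the variance
  have var : ∀ U : ℝ × ℝ → ℝ, MemLp U 2 (muT R.ℓ) → ∀ c : ℝ,
      Inu R.ℓ R.h δ (fun z => (U z - c) ^ 2) =
        Inu R.ℓ R.h δ (fun z => U z ^ 2) - 2 * c * Inu R.ℓ R.h δ U + c ^ 2 * N := by
    intro U mU c
    obtain ⟨K, -, -, hK⟩ := bdd_muT hcw R.ℓ
    have hK' : ∀ᵐ z ∂muT R.ℓ, ‖R.h z.1 * om R.ℓ R.h δ z / 2‖ ≤ K := hK
    have i1 : Integrable (fun z => U z ^ 2 * (R.h z.1 * om R.ℓ R.h δ z / 2)) (muT R.ℓ) :=
      mU.integrable_sq.mul_bdd hcw.aestronglyMeasurable hK'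
    have i2 : Integrable (fun z => U z * (R.h z.1 * om R.ℓ R.h δ z / 2)) (muT R.ℓ) :=
      (mU.integrable (by norm_num)).mul_bdd hcw.aestronglyMeasurable hK'
    have i3 : Integrable (fun z => (1:ℝ) * (R.h z.1 * om R.ℓ R.h δ z / 2)) (muT R.ℓ) :=
      (integrable_const 1).mul_bdd hcw.aestronglyMeasurable hK'
    rw [hN, Inu, Inu, Inu, Inu, ← integral_const_mul, ← integral_const_mul,
      ← integral_sub i1 (i2.const_mul _)]
    have e := integral_add (i1.sub (i2.const_mul (2 * c))) (i3.const_mul (c ^ 2))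
    simp only [Pi.sub_apply] at e
    rw [← e]
    congr 1
    ext z
    ring
  have main : ∀ φ, C1per R.ℓ φ →
      l' * (Inu R.ℓ R.h δ (fun z => φ z ^ 2) - (Inu R.ℓ R.h δ φ) ^ 2 / N) ≤
        Bil R.ℓ R.h δ (dS φ) (dY φ) (dS φ) (dY φ) := by
    intro φ hφ
    set c := ub φ 0 with hc
    have hψ : C1per R.ℓ (fun z => φ z - c) := ⟨hφ.1.sub contDiff_const, fun s y => by
      simp only [hφ.2]⟩
    have ds : dS (fun z => φ z - c) = dS φ := by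
      funext z
      rw [dS, dS, fderiv_sub_const]
    have dy : dY (fun z => φ z - c) = dY φ := by
      funext z
      rw [dY, dY, fderiv_sub_const]
    have hub : ub (fun z => φ z - c) = fun s => ub φ s - c := by
      ext s
      have hsy : Continuous fun y : ℝ => (s, y) := by fun_prop
      have hc' : Continuous fun y : ℝ => φ (s, y) := hφ.1.continuous.comp hsy
      have h1 : ∫ y in (-1:ℝ)..1, (φ (s, y) - c) = (∫ y in (-1:ℝ)..1, φ (s, y)) - 2 * c := by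
        rw [intervalIntegral.integral_sub (hc'.intervalIntegrable _ _)
          (continuous_const.intervalIntegrable _ _), intervalIntegral.integral_const, smul_eq_mul]
        norm_num
      rw [ub, h1, ub]
      ring
    obtain ⟨r1, r2, r3⟩ := hδ _ hψ
    rw [ds, dy, hub] at r1 r3
    have r4 := R.T4 (ub φ) (C1p_ub hφ)
    have r5 := (hδ _ hφ).1
    have r6 := var φ (cont_memLp hφ.1.continuous) c
    have q1 := Bil_nonneg w δ (dS φ) (dY φ)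
    set B := Bil R.ℓ R.h δ (dS φ) (dY φ) (dS φ) (dY φ)
    set S := Sm R.h (fun s => ub φ s - c) 0 R.ℓ
    set E := En R.h (ub φ) 0 R.ℓ
    set X := Inu R.ℓ R.h δ (fun z => φ z ^ 2)
    set Y := Inu R.ℓ R.h δ φ
    have s1 : X - Y ^ 2 / N ≤ Inu R.ℓ R.h δ (fun z => (φ z - c) ^ 2) := by
      rw [r6]
      have : 0 ≤ (Y - c * N) ^ 2 / N := by positivity
      have e : (Y - c * N) ^ 2 / N = Y ^ 2 / N - 2 * c * Y + c ^ 2 * N := by
        field_simp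
        ring
      linarith
    have s2 : l' * (X - Y ^ 2 / N) ≤ l' * ((1 + η) * S + η * B) :=
      mul_le_mul_of_nonneg_left (s1.trans r3) hl'p.le
    have s3 : l' * (1 + η) * S = l' / R.l4 * (1 + η) * (R.l4 * S) := by
      field_simp
    have s4 : l' / R.l4 * (1 + η) * (R.l4 * S) ≤ l' / R.l4 * (1 + η) * ((1 + η) * B) :=
      mul_le_mul_of_nonneg_left (r4.trans r5) (by positivity)
    have s5 : (l' * η + l' / R.l4 * (1 + η) ^ 2) * B ≤ 1 * B :=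
      mul_le_mul_of_nonneg_right hηc q1
    nlinarith
  refine ⟨Inu R.ℓ R.h δ U / N, by field_simp, ?_⟩
  have t1 := ((Inu_sq_lim w δ k1).sub (((Inu_lim w δ k1).pow 2).div_const N)).const_mul l'
  have t2 := Bil_lim w hδ0 k2 k3 k2 k3
  have t3 := le_of_tendsto_of_tendsto' t1 t2 fun n => main (φ n) (hφ n)
  have r6 := var U hU.mU (Inu R.ℓ R.h δ U / N)
  have r7 : Inu R.ℓ R.h δ (fun z => (U z - Inu R.ℓ R.h δ U / N) ^ 2) =
      Inu R.ℓ R.h δ (fun z => U z ^ 2) - (Inu R.ℓ R.h δ U) ^ 2 / N := by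
    rw [r6]
    field_simp
    ring
  have r8 : 0 ≤ Inu R.ℓ R.h δ (fun z => (U z - Inu R.ℓ R.h δ U / N) ^ 2) :=
    integral_nonneg fun z => mul_nonneg (sq_nonneg _) (by
      have := mul_pos (w.pos z.1) (om_pos (ℓ := R.ℓ) (h := R.h) δ z)
      linarith)
  calc l * Inu R.ℓ R.h δ (fun z => (U z - Inu R.ℓ R.h δ U / N) ^ 2)
      ≤ l' * Inu R.ℓ R.h δ (fun z => (U z - Inu R.ℓ R.h δ U / N) ^ 2) :=
        mul_le_mul_of_nonneg_right (le_max_left _ _) r8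
    _ = l' * (Inu R.ℓ R.h δ (fun z => U z ^ 2) - (Inu R.ℓ R.h δ U) ^ 2 / N) := by rw [r7]
    _ ≤ _ := t3

end ring

end Pool.Agent.Lib.MP_e46711_an.H1
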