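import Pool.Agent.Lib.MP_e46711_an.H1.Tools

/-!
The measure `muT`, slices of `C^1` functions, averages over slices, approximation of `H1T`.
-/

set_option autoImplicit false

open Set Filter Topology MeasureTheory
open scoped ContDiff

namespace Pool.Agent.Lib.MP_e46711_an.H1

section mu

variable {ℓ : ℝ}

instance : IsFiniteMeasure (muT ℓ) := by
  unfold muT
  infer_instance

theorem ae_muT (ℓ : ℝ) : ∀ᵐ z ∂muT ℓ, z.1 ∈ Ioc 0 ℓ ∧ z.2 ∈ Ioo (-1) 1 := by
  have h : muT ℓ = (volume : Measure (ℝ × ℝ)).restrict (Ioc 0 ℓ ×ˢ Ioo (-1) 1) := by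
    unfold muT
    rw [Measure.prod_restrict, ← Measure.volume_eq_prod]
  rw [h]
  filter_upwards [ae_restrict_mem (measurableSet_Ioc.prod measurableSet_Ioo)] with z hz
  exact hz

theorem bdd_muT {f : ℝ × ℝ → ℝ} (hf : Continuous f) (ℓ : ℝ) :
    ∃ K, 0 ≤ K ∧ (∀ z : ℝ × ℝ, z.1 ∈ Icc 0 ℓ → z.2 ∈ Icc (-1) 1 → |f z| ≤ K) ∧
      ∀ᵐ z ∂muT ℓ, |f z| ≤ K := by
  obtain ⟨K, hK⟩ := (isCompact_Icc.prod isCompact_Icc :
    IsCompact ((Icc 0 ℓ : Set ℝ) ×ˢ (Icc (-1) 1 : Set ℝ))).exists_bound_of_continuousOn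
      hf.continuousOn
  refine ⟨max K 0, le_max_right _ _, fun z h1 h2 => (hK z ⟨h1, h2⟩).trans (le_max_left _ _), ?_⟩
  filter_upwards [ae_muT ℓ] with z hz
  exact (hK z ⟨Ioc_subset_Icc_self hz.1, Ioo_subset_Icc_self hz.2⟩).trans (le_max_left _ _)

theorem cont_memLp {f : ℝ × ℝ → ℝ} (hf : Continuous f) : MemLp f 2 (muT ℓ) := by
  obtain ⟨K, -, -, hK⟩ := bdd_muT hf ℓ
  exact MemLp.of_bound hf.aestronglyMeasurable K (by simpa using hK)

theorem cont_int {f : ℝ × ℝ → ℝ} (hf : Continuous f) : Integrable f (muT ℓ) := by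
  obtain ⟨K, -, -, hK⟩ := bdd_muT hf ℓ
  exact Integrable.of_bound hf.aestronglyMeasurable K (by simpa using hK)

theorem ii_Ioo (g : ℝ → ℝ) :
    ∫ y in (-1:ℝ)..1, g y = ∫ y, g y ∂(volume.restrict (Ioo (-1) 1)) := by
  rw [intervalIntegral.integral_of_le (by norm_num), integral_Ioc_eq_integral_Ioo]

theorem fub (hℓ : 0 ≤ ℓ) {f : ℝ × ℝ → ℝ} (hf : Integrable f (muT ℓ)) :
    ∫ z, f z ∂muT ℓ = ∫ s in (0:ℝ)..ℓ, ∫ y in (-1:ℝ)..1, f (s, y) := by
  rw [intervalIntegral.integral_of_le hℓ]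
  simp_rw [ii_Ioo]
  exact integral_prod f hf

theorem fub' (hℓ : 0 ≤ ℓ) {f : ℝ × ℝ → ℝ} (hf : Continuous f) :
    ∫ z, f z ∂muT ℓ = ∫ s in (0:ℝ)..ℓ, ∫ y in (-1:ℝ)..1, f (s, y) := fub hℓ (cont_int hf)

/-- parametric integrals of continuous functions -/
theorem cont_ii {f : ℝ × ℝ → ℝ} (hf : Continuous f) :
    Continuous fun s => ∫ y in (-1:ℝ)..1, f (s, y) :=
  intervalIntegral.continuous_parametric_intervalIntegral_of_continuous' (f := fun s y => f (s, y))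
    hf _ _

/-- one-dimensional integrals as integrals on the strip -/
theorem one_d (hℓ : 0 ≤ ℓ) {g : ℝ → ℝ} (hg : Continuous g) :
    ∫ z, g z.1 ∂muT ℓ = 2 * ∫ s in (0:ℝ)..ℓ, g s := by
  have e := fub' hℓ (f := fun z => g z.1) (hg.comp continuous_fst)
  rw [e, ← intervalIntegral.integral_const_mul]
  congr 1
  ext s
  change ∫ _y in (-1:ℝ)..1, g s = 2 * g s
  rw [intervalIntegral.integral_const, smul_eq_mul]
  ring

end mu

/-! ### averages -/

/-- average over a slice -/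
noncomputable def ub (f : ℝ × ℝ → ℝ) (s : ℝ) : ℝ := (∫ y in (-1:ℝ)..1, f (s, y)) / 2

theorem avY_eq (f : ℝ × ℝ → ℝ) (z : ℝ × ℝ) : avY f z = ub f z.1 := rfl

section avg

variable {ℓ : ℝ}

theorem avY_int {g : ℝ × ℝ → ℝ} (hg : Integrable g (muT ℓ)) :
    Integrable (avY g) (muT ℓ) ∧ ∫ z, avY g z ∂muT ℓ = ∫ z, g z ∂muT ℓ := by
  have h1 : Integrable (fun s => ∫ y, g (s, y) ∂(volume.restrict (Ioo (-1:ℝ) 1)))
      (volume.restrict (Ioc 0 ℓ)) := hg.integral_prod_left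
  have h2 : Integrable (fun z : ℝ × ℝ => ∫ y, g (z.1, y) ∂(volume.restrict (Ioo (-1:ℝ) 1)))
      (muT ℓ) := h1.comp_fst _
  have h3 : avY g = fun z => (∫ y, g (z.1, y) ∂(volume.restrict (Ioo (-1:ℝ) 1))) / 2 := by
    ext z
    rw [avY, ii_Ioo]
  rw [h3]
  refine ⟨h2.div_const 2, ?_⟩
  rw [integral_div]
  have h4 : ∫ z, (∫ y, g (z.1, y) ∂(volume.restrict (Ioo (-1:ℝ) 1))) ∂muT ℓ =
      ∫ s, ∫ _y, (∫ y, g (s, y) ∂(volume.restrict (Ioo (-1:ℝ) 1)))
        ∂(volume.restrict (Ioo (-1:ℝ) 1)) ∂(volume.restrict (Ioc 0 ℓ)) := integral_prod _ h2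
  have h5 : ∫ z, g z ∂muT ℓ = ∫ s, (∫ y, g (s, y) ∂(volume.restrict (Ioo (-1:ℝ) 1)))
      ∂(volume.restrict (Ioc 0 ℓ)) := integral_prod _ hg
  rw [h4, h5, ← integral_div]
  congr 1
  ext s
  rw [integral_const]
  have : (volume.restrict (Ioo (-1:ℝ) 1)).real univ = 2 := by
    simp [Measure.real]
    norm_num
  rw [this, smul_eq_mul]
  ring

theorem avY_meas {f : ℝ × ℝ → ℝ} (hf : AEStronglyMeasurable f (muT ℓ)) :
    AEStronglyMeasurable (avY f) (muT ℓ) := by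
  have h1 : AEStronglyMeasurable (fun s => ∫ y, f (s, y) ∂(volume.restrict (Ioo (-1:ℝ) 1)))
      (volume.restrict (Ioc 0 ℓ)) := hf.integral_prod_right'
  have h2 : AEStronglyMeasurable
      (fun z : ℝ × ℝ => ∫ y, f (z.1, y) ∂(volume.restrict (Ioo (-1:ℝ) 1))) (muT ℓ) :=
    h1.comp_fst
  have h3 : avY f = fun z => (∫ y, f (z.1, y) ∂(volume.restrict (Ioo (-1:ℝ) 1))) / 2 := by
    ext z
    rw [avY, ii_Ioo]
  rw [h3]
  simpa [div_eq_mul_inv] using h2.mul_const (2:ℝ)⁻¹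

/-- almost all slices of an `L^2` function are in `L^2` -/
theorem slice_memLp {f : ℝ × ℝ → ℝ} (hf : MemLp f 2 (muT ℓ)) :
    ∀ᵐ z ∂muT ℓ, MemLp (fun y => f (z.1, y)) 2 (volume.restrict (Ioo (-1:ℝ) 1)) := by
  have h1 : ∀ᵐ s ∂(volume.restrict (Ioc 0 ℓ)),
      MemLp (fun y => f (s, y)) 2 (volume.restrict (Ioo (-1:ℝ) 1)) := by
    have h2 := hf.integrable_sq.prod_right_ae
    have h3 := hf.1.prodMk_left
    filter_upwards [h2, h3] with s hs hs'
    exact (memLp_two_iff_integrable_sq hs').2 hs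
  exact Measure.quasiMeasurePreserving_fst.ae h1

theorem avY_sq_le {f : ℝ × ℝ → ℝ} (hf : MemLp f 2 (muT ℓ)) :
    ∀ᵐ z ∂muT ℓ, avY f z ^ 2 ≤ avY (fun z => f z ^ 2) z := by
  filter_upwards [slice_memLp hf] with z hz
  simp only [avY, ii_Ioo]
  have h1 := cs hz (memLp_const (1:ℝ))
  have h2 : ∫ y, ((1:ℝ)) ^ 2 ∂(volume.restrict (Ioo (-1:ℝ) 1)) = 2 := by
    simp [Measure.real]
    norm_num
  rw [h2] at h1
  simp only [mul_one] at h1
  rw [div_pow]
  linarith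

theorem avY_memLp {f : ℝ × ℝ → ℝ} (hf : MemLp f 2 (muT ℓ)) :
    MemLp (avY f) 2 (muT ℓ) ∧ ∫ z, avY f z ^ 2 ∂muT ℓ ≤ ∫ z, f z ^ 2 ∂muT ℓ := by
  have h1 := avY_int hf.integrable_sq
  have h2 := avY_sq_le hf
  have h3 : Integrable (fun z => avY f z ^ 2) (muT ℓ) := by
    refine h1.1.mono ((avY_meas hf.1).pow 2) ?_
    filter_upwards [h2] with z hz
    rw [Real.norm_eq_abs, Real.norm_eq_abs, abs_of_nonneg (sq_nonneg _)]
    exact hz.trans (le_abs_self _)
  refine ⟨(memLp_two_iff_integrable_sq (avY_meas hf.1)).2 h3, ?_⟩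
  rw [← h1.2]
  exact integral_mono_ae h3 h1.1 h2

theorem avY_sub {f g : ℝ × ℝ → ℝ} (hf : MemLp f 2 (muT ℓ)) (hg : MemLp g 2 (muT ℓ)) :
    ∀ᵐ z ∂muT ℓ, avY (fun z => f z - g z) z = avY f z - avY g z := by
  filter_upwards [slice_memLp hf, slice_memLp hg] with z hz hz'
  simp only [avY, ii_Ioo]
  rw [integral_sub (hz.integrable (by norm_num)) (hz'.integrable (by norm_num))]
  ring

theorem L2T.avY {f : ℕ → ℝ × ℝ → ℝ} {g : ℝ × ℝ → ℝ} (h : L2T (muT ℓ) f g) :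
    L2T (muT ℓ) (fun n => avY (f n)) (avY g) := by
  refine h.of_le (fun n => (avY_memLp (h.mf n)).1) (avY_memLp h.mg).1 1 fun n => ?_
  rw [one_mul]
  have h1 := (avY_memLp ((h.mf n).sub h.mg)).2
  have h2 := avY_sub (h.mf n) h.mg
  refine le_trans (le_of_eq ?_) h1
  apply integral_congr_ae
  filter_upwards [h2] with z hz
  rw [← hz]
  rfl

end avg

/-! ### `C^1` functions -/

section C1

variable {ℓ : ℝ} {φ : ℝ × ℝ → ℝ}

theorem C1per.cont (h : C1per ℓ φ) : Continuous φ := h.1.continuous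

theorem cont_dS (h : C1per ℓ φ) : Continuous (dS φ) :=
  (h.1.continuous_fderiv (by norm_num)).clm_apply continuous_const

theorem cont_dY (h : C1per ℓ φ) : Continuous (dY φ) :=
  (h.1.continuous_fderiv (by norm_num)).clm_apply continuous_const

theorem hasDeriv_S (h : C1per ℓ φ) (s y : ℝ) :
    HasDerivAt (fun s => φ (s, y)) (dS φ (s, y)) s := by
  have h1 : HasFDerivAt φ (fderiv ℝ φ (s, y)) (s, y) :=
    (h.1.differentiable (by norm_num) (s, y)).hasFDerivAt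
  exact h1.comp_hasDerivAt s ((hasDerivAt_id s).prodMk (hasDerivAt_const s y))

theorem hasDeriv_Y (h : C1per ℓ φ) (s y : ℝ) :
    HasDerivAt (fun y => φ (s, y)) (dY φ (s, y)) y := by
  have h1 : HasFDerivAt φ (fderiv ℝ φ (s, y)) (s, y) :=
    (h.1.differentiable (by norm_num) (s, y)).hasFDerivAt
  exact h1.comp_hasDerivAt y ((hasDerivAt_const y s).prodMk (hasDerivAt_id y))

theorem per_dS (h : C1per ℓ φ) (s y : ℝ) : dS φ (s + ℓ, y) = dS φ (s, y) := by
  have h1 := hasDeriv_S h (s + ℓ) y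
  have h2 : HasDerivAt (fun s => φ (s + ℓ, y)) (dS φ (s + ℓ, y)) s := by
    have := h1.comp_add_const s ℓ
    exact this
  have h3 : (fun s => φ (s + ℓ, y)) = fun s => φ (s, y) := funext fun s => h.2 s y
  rw [h3] at h2
  exact h2.unique (hasDeriv_S h s y)

theorem hasDeriv_ub (h : C1per ℓ φ) (s : ℝ) : HasDerivAt (ub φ) (ub (dS φ) s) s := by
  obtain ⟨K, hK⟩ := (isCompact_Icc.prod isCompact_Icc :
    IsCompact ((Icc (s - 1) (s + 1) : Set ℝ) ×ˢ (Icc (-1) 1 : Set ℝ))).exists_bound_of_continuousOn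
      (cont_dS h).continuousOn
  have h1 := intervalIntegral.hasDerivAt_integral_of_dominated_loc_of_deriv_le (μ := volume)
    (F := fun s y => φ (s, y)) (F' := fun s y => dS φ (s, y)) (x₀ := s) (a := -1) (b := 1)
    (s := Icc (s - 1) (s + 1)) (bound := fun _ => K) (Icc_mem_nhds (by linarith) (by linarith))
    (Eventually.of_forall fun x => (h.1.continuous.comp (by fun_prop)).aestronglyMeasurable)
    ((h.1.continuous.comp (by fun_prop)).intervalIntegrable _ _)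
    ((cont_dS h).comp (by fun_prop)).aestronglyMeasurable
    (Eventually.of_forall fun y hy x hx => hK (x, y) ⟨hx, by
      rw [uIoc_of_le (by norm_num)] at hy
      exact Ioc_subset_Icc_self hy⟩)
    (by simp) (Eventually.of_forall fun y hy x hx => hasDeriv_S h x y)
  exact h1.2.div_const 2

theorem C1p_ub (h : C1per ℓ φ) : C1p ℓ (ub φ) := by
  refine ⟨?_, fun s => ?_⟩
  · rw [contDiff_one_iff_deriv]
    refine ⟨fun s => (hasDeriv_ub h s).differentiableAt, ?_⟩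
    have h1 : deriv (ub φ) = ub (dS φ) := funext fun s => (hasDeriv_ub h s).deriv
    rw [h1]
    exact (cont_ii (cont_dS h)).div_const 2
  · simp only [ub, h.2]

theorem deriv_ub (h : C1per ℓ φ) (s : ℝ) : deriv (ub φ) s = ub (dS φ) s :=
  (hasDeriv_ub h s).deriv

theorem cont_ub {f : ℝ × ℝ → ℝ} (hf : Continuous f) : Continuous (ub f) :=
  (cont_ii hf).div_const 2

theorem C1per_avY (h : C1per ℓ φ) : C1per ℓ (avY φ) := by
  have h1 := C1p_ub h
  refine ⟨?_, fun s y => h1.2 s⟩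
  exact h1.1.comp contDiff_fst

theorem dS_avY (h : C1per ℓ φ) (z : ℝ × ℝ) : dS (avY φ) z = avY (dS φ) z := by
  obtain ⟨s, y⟩ := z
  have h1 := hasDeriv_S (C1per_avY h) s y
  exact h1.unique (hasDeriv_ub h s)

theorem dY_avY (h : C1per ℓ φ) (z : ℝ × ℝ) : dY (avY φ) z = 0 := by
  obtain ⟨s, y⟩ := z
  have h1 := hasDeriv_Y (C1per_avY h) s y
  exact h1.unique (hasDerivAt_const y (ub φ s))

end C1

/-! ### integrals on `[-1, 1]` -/

section ii

theorem ii_sq {g : ℝ → ℝ} (hg : Continuous g) :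
    (∫ y in (-1:ℝ)..1, g y) ^ 2 ≤ 2 * ∫ y in (-1:ℝ)..1, g y ^ 2 := by
  set m := (∫ y in (-1:ℝ)..1, g y) / 2 with hm
  have h0 : 0 ≤ ∫ y in (-1:ℝ)..1, (g y - m) ^ 2 :=
    intervalIntegral.integral_nonneg (by norm_num) fun y _ => sq_nonneg _
  have h1 : ∫ y in (-1:ℝ)..1, (g y - m) ^ 2 =
      (∫ y in (-1:ℝ)..1, g y ^ 2) - 2 * m * (∫ y in (-1:ℝ)..1, g y) + 2 * m ^ 2 := by
    have : ∀ y, (g y - m) ^ 2 = g y ^ 2 - 2 * m * g y + m ^ 2 := fun y => by ring
    simp_rw [this]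
    rw [intervalIntegral.integral_add, intervalIntegral.integral_sub,
      intervalIntegral.integral_const_mul, intervalIntegral.integral_const, smul_eq_mul]
    · ring
    · exact (hg.pow 2).intervalIntegrable _ _
    · exact (continuous_const.mul hg).intervalIntegrable _ _
    · exact ((hg.pow 2).sub (continuous_const.mul hg)).intervalIntegrable _ _
    · exact continuous_const.intervalIntegrable _ _
  have h2 : (∫ y in (-1:ℝ)..1, g y) = 2 * m := by rw [hm]; ring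
  rw [h2] at h1 ⊢
  nlinarith

/-- Jensen for `|.|^q` -/
theorem ii_pow {p : ℝ} (hp : 0 < p) {g : ℝ → ℝ} (hg : Continuous g) :
    |(∫ y in (-1:ℝ)..1, g y) / 2| ^ (p + 1) ≤ (∫ y in (-1:ℝ)..1, |g y| ^ (p + 1)) / 2 := by
  set m := (∫ y in (-1:ℝ)..1, g y) / 2 with hm
  have hc : Continuous fun y => |g y| ^ (p + 1) :=
    hg.abs.rpow_const fun _ => Or.inr (by linarith)
  have h1 : ∫ y in (-1:ℝ)..1, (|m| ^ (p + 1) + (p + 1) * sp (p + 1 - 1) m * (g y - m)) ≤
      ∫ y in (-1:ℝ)..1, |g y| ^ (p + 1) := by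
    apply intervalIntegral.integral_mono (by norm_num)
    · exact (continuous_const.add (continuous_const.mul (hg.sub continuous_const))
        ).intervalIntegrable _ _
    · exact hc.intervalIntegrable _ _
    · intro y
      exact tangent (by linarith) (g y) m
  rw [intervalIntegral.integral_add, intervalIntegral.integral_const_mul,
    intervalIntegral.integral_sub, intervalIntegral.integral_const,
    intervalIntegral.integral_const] at h1
  · have h2 : (∫ y in (-1:ℝ)..1, g y) = 2 * m := by rw [hm]; ring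
    rw [h2] at h1
    simp only [smul_eq_mul] at h1
    have h3 : 2 * m - (1 - -1) * m = 0 := by ring
    rw [h3] at h1
    linarith
  · exact hg.intervalIntegrable _ _
  · exact continuous_const.intervalIntegrable _ _
  · exact continuous_const.intervalIntegrable _ _
  · exact (continuous_const.mul (hg.sub continuous_const)).intervalIntegrable _ _

/-- variance on a slice -/
theorem ii_var {g : ℝ → ℝ} (hg : Continuous g) :
    ∫ y in (-1:ℝ)..1, g y ^ 2 = 2 * ((∫ y in (-1:ℝ)..1, g y) / 2) ^ 2 +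
      ∫ y in (-1:ℝ)..1, (g y - (∫ y in (-1:ℝ)..1, g y) / 2) ^ 2 := by
  set m := (∫ y in (-1:ℝ)..1, g y) / 2 with hm
  have h1 : ∫ y in (-1:ℝ)..1, (g y - m) ^ 2 =
      (∫ y in (-1:ℝ)..1, g y ^ 2) - 2 * m * (∫ y in (-1:ℝ)..1, g y) + 2 * m ^ 2 := by
    have : ∀ y, (g y - m) ^ 2 = g y ^ 2 - 2 * m * g y + m ^ 2 := fun y => by ring
    simp_rw [this]
    rw [intervalIntegral.integral_add, intervalIntegral.integral_sub,
      intervalIntegral.integral_const_mul, intervalIntegral.integral_const, smul_eq_mul]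
    · ring
    · exact (hg.pow 2).intervalIntegrable _ _
    · exact (continuous_const.mul hg).intervalIntegrable _ _
    · exact ((hg.pow 2).sub (continuous_const.mul hg)).intervalIntegrable _ _
    · exact continuous_const.intervalIntegrable _ _
  have h2 : (∫ y in (-1:ℝ)..1, g y) = 2 * m := by rw [hm]; ring
  rw [h1, h2]
  ring

end ii

section slice

variable {ℓ : ℝ} {φ : ℝ × ℝ → ℝ}

/-- `|φ(s,y) - φ(s,y')|^2 ≤ 2 ∫ φ_y^2` -/
theorem osc (h : C1per ℓ φ) (s : ℝ) {y y' : ℝ} (hy : y ∈ Icc (-1:ℝ) 1) (hy' : y' ∈ Icc (-1:ℝ) 1) :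
    |φ (s, y) - φ (s, y')| ≤ ∫ y in (-1:ℝ)..1, |dY φ (s, y)| := by
  have hc : Continuous fun y => dY φ (s, y) := (cont_dY h).comp (by fun_prop)
  have key : ∀ a b : ℝ, a ∈ Icc (-1:ℝ) 1 → b ∈ Icc (-1:ℝ) 1 → a ≤ b →
      |φ (s, b) - φ (s, a)| ≤ ∫ y in (-1:ℝ)..1, |dY φ (s, y)| := by
    intro a b ha hb hab
    rw [← intervalIntegral.integral_eq_sub_of_hasDerivAt (fun y _ => hasDeriv_Y h s y)
      (hc.intervalIntegrable _ _)]
    refine (intervalIntegral.abs_integral_le_integral_abs hab).trans ?_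
    exact intervalIntegral.integral_mono_interval ha.1 hab hb.2
      (Eventually.of_forall fun y => abs_nonneg _) (hc.abs.intervalIntegrable _ _)
  rcases le_total y y' with h1 | h1
  · rw [abs_sub_comm]
    exact key y y' hy hy' h1
  · exact key y' y hy' hy h1

theorem sub_ub (h : C1per ℓ φ) (s : ℝ) {y : ℝ} (hy : y ∈ Icc (-1:ℝ) 1) :
    |φ (s, y) - ub φ s| ≤ ∫ y in (-1:ℝ)..1, |dY φ (s, y)| := by
  have hcφ : Continuous fun y => φ (s, y) := h.1.continuous.comp (by fun_prop)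
  have h1 : φ (s, y) - ub φ s = (∫ y' in (-1:ℝ)..1, (φ (s, y) - φ (s, y'))) / 2 := by
    rw [intervalIntegral.integral_sub (continuous_const.intervalIntegrable _ _)
      (hcφ.intervalIntegrable _ _), intervalIntegral.integral_const, ub]
    simp only [smul_eq_mul]
    ring
  rw [h1, abs_div, abs_of_pos (by norm_num : (0:ℝ) < 2), div_le_iff₀ (by norm_num)]
  calc |∫ y' in (-1:ℝ)..1, (φ (s, y) - φ (s, y'))|
      ≤ ∫ y' in (-1:ℝ)..1, |φ (s, y) - φ (s, y')| :=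
        intervalIntegral.abs_integral_le_integral_abs (by norm_num)
    _ ≤ ∫ _y' in (-1:ℝ)..1, (∫ y in (-1:ℝ)..1, |dY φ (s, y)|) := by
        apply intervalIntegral.integral_mono_on (by norm_num)
        · exact (continuous_const.sub hcφ).abs.intervalIntegrable _ _
        · exact continuous_const.intervalIntegrable _ _
        · intro y' hy'
          exact osc h s hy hy'
    _ = (∫ y in (-1:ℝ)..1, |dY φ (s, y)|) * 2 := by
        rw [intervalIntegral.integral_const]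
        simp only [smul_eq_mul]
        ring

theorem sub_ub_sq (h : C1per ℓ φ) (s : ℝ) {y : ℝ} (hy : y ∈ Icc (-1:ℝ) 1) :
    (φ (s, y) - ub φ s) ^ 2 ≤ 2 * ∫ y in (-1:ℝ)..1, dY φ (s, y) ^ 2 := by
  have hc : Continuous fun y => dY φ (s, y) := (cont_dY h).comp (by fun_prop)
  have h1 := ii_sq hc.abs
  simp only [sq_abs] at h1
  refine le_trans ?_ h1
  rw [← sq_abs]
  exact pow_le_pow_left₀ (abs_nonneg _) (sub_ub h s hy) 2

theorem int_sub_avY (hℓ : 0 ≤ ℓ) (h : C1per ℓ φ) :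
    ∫ z, (φ z - avY φ z) ^ 2 ∂muT ℓ ≤ 4 * ∫ z, dY φ z ^ 2 ∂muT ℓ := by
  have hc1 : Continuous fun z => (φ z - avY φ z) ^ 2 :=
    (h.1.continuous.sub (C1per_avY h).1.continuous).pow 2
  have e := fub' hℓ (f := fun z => dY φ z ^ 2) ((cont_dY h).pow 2)
  rw [fub' hℓ hc1, e, ← intervalIntegral.integral_const_mul]
  apply intervalIntegral.integral_mono_on hℓ
  · exact (cont_ii hc1).intervalIntegrable _ _
  · exact (continuous_const.mul (cont_ii ((cont_dY h).pow 2))).intervalIntegrable _ _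
  · intro s _
    calc ∫ y in (-1:ℝ)..1, (φ (s, y) - avY φ (s, y)) ^ 2
        ≤ ∫ _y in (-1:ℝ)..1, 2 * ∫ y in (-1:ℝ)..1, dY φ (s, y) ^ 2 := by
          apply intervalIntegral.integral_mono_on (by norm_num)
          · exact (hc1.comp (by fun_prop : Continuous fun y : ℝ => (s, y))).intervalIntegrable _ _
          · exact continuous_const.intervalIntegrable _ _
          · intro y hy
            exact sub_ub_sq h s hy
      _ = 4 * ∫ y in (-1:ℝ)..1, dY φ (s, y) ^ 2 := by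
          rw [intervalIntegral.integral_const]
          simp only [smul_eq_mul]
          ring

end slice

/-! ### approximation -/

theorem exists_L2T {ℓ : ℝ} {U V W : ℝ × ℝ → ℝ} (h : H1T ℓ U V W) :
    ∃ φ : ℕ → ℝ × ℝ → ℝ, (∀ n, C1per ℓ (φ n)) ∧ L2T (muT ℓ) φ U ∧
      L2T (muT ℓ) (fun n => dS (φ n)) V ∧ L2T (muT ℓ) (fun n => dY (φ n)) W := by
  obtain ⟨φ, hφ, hlim⟩ := h.approx
  have m1 : ∀ n, MemLp (φ n) 2 (muT ℓ) := fun n => cont_memLp (hφ n).1.continuous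
  have m2 : ∀ n, MemLp (dS (φ n)) 2 (muT ℓ) := fun n => cont_memLp (cont_dS (hφ n))
  have m3 : ∀ n, MemLp (dY (φ n)) 2 (muT ℓ) := fun n => cont_memLp (cont_dY (hφ n))
  have i1 : ∀ n, Integrable (fun z => (φ n z - U z) ^ 2) (muT ℓ) := fun n =>
    ((m1 n).sub h.mU).integrable_sq
  have i2 : ∀ n, Integrable (fun z => (dS (φ n) z - V z) ^ 2) (muT ℓ) := fun n =>
    ((m2 n).sub h.mV).integrable_sq
  have i3 : ∀ n, Integrable (fun z => (dY (φ n) z - W z) ^ 2) (muT ℓ) := fun n =>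
    ((m3 n).sub h.mW).integrable_sq
  have i4 : ∀ n, Integrable (fun z => (φ n z - U z) ^ 2 + (dS (φ n) z - V z) ^ 2
      + (dY (φ n) z - W z) ^ 2) (muT ℓ) := fun n => ((i1 n).add (i2 n)).add (i3 n)
  refine ⟨φ, hφ, ⟨m1, h.mU, ?_⟩, ⟨m2, h.mV, ?_⟩, ⟨m3, h.mW, ?_⟩⟩
  · exact squeeze_zero (fun n => sq_nonneg_int _) (fun n => integral_mono (i1 n) (i4 n) fun z => by
      change _ ≤ (φ n z - U z) ^ 2 + (dS (φ n) z - V z) ^ 2 + (dY (φ n) z - W z) ^ 2
      nlinarith [sq_nonneg (dS (φ n) z - V z), sq_nonneg (dY (φ n) z - W z)]) hlim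
  · exact squeeze_zero (fun n => sq_nonneg_int _) (fun n => integral_mono (i2 n) (i4 n) fun z => by
      change _ ≤ (φ n z - U z) ^ 2 + (dS (φ n) z - V z) ^ 2 + (dY (φ n) z - W z) ^ 2
      nlinarith [sq_nonneg (φ n z - U z), sq_nonneg (dY (φ n) z - W z)]) hlim
  · exact squeeze_zero (fun n => sq_nonneg_int _) (fun n => integral_mono (i3 n) (i4 n) fun z => by
      change _ ≤ (φ n z - U z) ^ 2 + (dS (φ n) z - V z) ^ 2 + (dY (φ n) z - W z) ^ 2
      nlinarith [sq_nonneg (dS (φ n) z - V z), sq_nonneg (φ n z - U z)]) hlim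

/-- the converse -/
theorem H1T_of_L2T {ℓ : ℝ} {U V W : ℝ × ℝ → ℝ} {φ : ℕ → ℝ × ℝ → ℝ} (hφ : ∀ n, C1per ℓ (φ n))
    (h1 : L2T (muT ℓ) φ U) (h2 : L2T (muT ℓ) (fun n => dS (φ n)) V)
    (h3 : L2T (muT ℓ) (fun n => dY (φ n)) W) : H1T ℓ U V W := by
  refine ⟨h1.mg, h2.mg, h3.mg, φ, hφ, ?_⟩
  have h4 := (h1.lim.add h2.lim).add h3.lim
  simp only [add_zero] at h4
  refine h4.congr fun n => ?_
  have i1 : Integrable (fun z => (φ n z - U z) ^ 2) (muT ℓ) := ((h1.mf n).sub h1.mg).integrable_sq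
  have i2 : Integrable (fun z => (dS (φ n) z - V z) ^ 2) (muT ℓ) :=
    ((h2.mf n).sub h2.mg).integrable_sq
  have i3 : Integrable (fun z => (dY (φ n) z - W z) ^ 2) (muT ℓ) :=
    ((h3.mf n).sub h3.mg).integrable_sq
  have e1 := integral_add (i1.add i2) i3
  have e2 := integral_add i1 i2
  simp only [Pi.add_apply] at e1 e2
  rw [← e2, ← e1]

end Pool.Agent.Lib.MP_e46711_an.H1
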