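import Pool.Agent.Lib.MP_e46711_an.H82.Basic

/-!
Tools for part B: convergence in `L^2` of a finite measure, slices, Fubini on `muT`, passage to the
limit in the functionals.
-/

set_option autoImplicit false

open Set Filter Topology MeasureTheory
open scoped ContDiff

namespace Pool.Agent.Lib.MP_e46711_an.H1

section L2

variable {α : Type*} [MeasurableSpace α] {μ : Measure α}

/-- convergence in `L^2(μ)` -/
structure L2T (μ : Measure α) (f : ℕ → α → ℝ) (g : α → ℝ) : Prop where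
  mf : ∀ n, MemLp (f n) 2 μ
  mg : MemLp g 2 μ
  lim : Tendsto (fun n => ∫ z, (f n z - g z) ^ 2 ∂μ) atTop (𝓝 0)

theorem norm_sq_toLp {f : α → ℝ} (hf : MemLp f 2 μ) : ‖hf.toLp f‖ ^ 2 = ∫ z, f z ^ 2 ∂μ := by
  rw [← real_inner_self_eq_norm_sq, L2.inner_def]
  apply integral_congr_ae
  filter_upwards [hf.coeFn_toLp] with z hz
  rw [hz]
  simp [sq]

theorem inner_toLp {f g : α → ℝ} (hf : MemLp f 2 μ) (hg : MemLp g 2 μ) :
    inner ℝ (hf.toLp f) (hg.toLp g) = ∫ z, f z * g z ∂μ := by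
  rw [L2.inner_def]
  apply integral_congr_ae
  filter_upwards [hf.coeFn_toLp, hg.coeFn_toLp] with z hz hz'
  rw [hz, hz']
  simp [mul_comm]

theorem sq_nonneg_int (f : α → ℝ) : 0 ≤ ∫ z, f z ^ 2 ∂μ := integral_nonneg fun _ => sq_nonneg _

/-- Cauchy-Schwarz -/
theorem cs {f g : α → ℝ} (hf : MemLp f 2 μ) (hg : MemLp g 2 μ) :
    (∫ z, f z * g z ∂μ) ^ 2 ≤ (∫ z, f z ^ 2 ∂μ) * ∫ z, g z ^ 2 ∂μ := by
  rw [← inner_toLp hf hg, ← norm_sq_toLp hf, ← norm_sq_toLp hg, ← mul_pow]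
  have h := abs_real_inner_le_norm (hf.toLp f) (hg.toLp g)
  rw [← sq_abs]
  exact pow_le_pow_left₀ (abs_nonneg _) h 2

theorem L2T.tendsto_toLp {f : ℕ → α → ℝ} {g : α → ℝ} (h : L2T μ f g) :
    Tendsto (fun n => (h.mf n).toLp (f n)) atTop (𝓝 (h.mg.toLp g)) := by
  rw [tendsto_iff_norm_sub_tendsto_zero]
  have h1 : ∀ n, ‖(h.mf n).toLp (f n) - h.mg.toLp g‖ = √(∫ z, (f n z - g z) ^ 2 ∂μ) := by
    intro n
    rw [← MemLp.toLp_sub, ← Real.sqrt_sq (norm_nonneg _), norm_sq_toLp]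
    rfl
  simp_rw [h1]
  have := (Real.continuous_sqrt.tendsto 0).comp h.lim
  rw [Real.sqrt_zero] at this
  exact this

theorem L2T.inner {f f' : ℕ → α → ℝ} {g g' : α → ℝ} (h : L2T μ f g) (h' : L2T μ f' g') :
    Tendsto (fun n => ∫ z, f n z * f' n z ∂μ) atTop (𝓝 (∫ z, g z * g' z ∂μ)) := by
  have := Filter.Tendsto.inner (𝕜 := ℝ) h.tendsto_toLp h'.tendsto_toLp
  simpa only [inner_toLp] using this

theorem L2T.sq {f : ℕ → α → ℝ} {g : α → ℝ} (h : L2T μ f g) :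
    Tendsto (fun n => ∫ z, f n z ^ 2 ∂μ) atTop (𝓝 (∫ z, g z ^ 2 ∂μ)) := by
  simpa only [pow_two] using h.inner h

/-- squeeze -/
theorem L2T.of_le {f f' : ℕ → α → ℝ} {g g' : α → ℝ} (h : L2T μ f g) (mf : ∀ n, MemLp (f' n) 2 μ)
    (mg : MemLp g' 2 μ) (K : ℝ)
    (hK : ∀ n, ∫ z, (f' n z - g' z) ^ 2 ∂μ ≤ K * ∫ z, (f n z - g z) ^ 2 ∂μ) :
    L2T μ f' g' := by
  refine ⟨mf, mg, squeeze_zero (fun n => sq_nonneg_int _) hK ?_⟩
  simpa using h.lim.const_mul K

theorem MemLp2.sq_int {f : α → ℝ} (hf : MemLp f 2 μ) : Integrable (fun z => f z ^ 2) μ :=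
  hf.integrable_sq

theorem MemLp2.mul_int {f g : α → ℝ} (hf : MemLp f 2 μ) (hg : MemLp g 2 μ) :
    Integrable (fun z => f z * g z) μ := hf.integrable_mul hg

theorem L2T.of_le' {f f' : ℕ → α → ℝ} {g g' : α → ℝ} (h : L2T μ f g) (mf : ∀ n, MemLp (f' n) 2 μ)
    (mg : MemLp g' 2 μ) (K : ℝ)
    (hK : ∀ n, ∀ᵐ z ∂μ, |f' n z - g' z| ≤ K * |f n z - g z|) : L2T μ f' g' := by
  refine h.of_le mf mg (K ^ 2) fun n => ?_
  rw [← integral_const_mul]
  refine integral_mono_ae ((mf n).sub mg).integrable_sq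
    (((h.mf n).sub h.mg).integrable_sq.const_mul _) ?_
  filter_upwards [hK n] with z hz
  have h0 : 0 ≤ |f' n z - g' z| := abs_nonneg _
  calc (f' n z - g' z) ^ 2 = |f' n z - g' z| ^ 2 := (sq_abs _).symm
    _ ≤ (K * |f n z - g z|) ^ 2 := pow_le_pow_left₀ h0 hz 2
    _ = K ^ 2 * (f n z - g z) ^ 2 := by rw [mul_pow, sq_abs]

theorem L2T.add {f f' : ℕ → α → ℝ} {g g' : α → ℝ} (h : L2T μ f g) (h' : L2T μ f' g') :
    L2T μ (fun n z => f n z + f' n z) (fun z => g z + g' z) := by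
  refine ⟨fun n => (h.mf n).add (h'.mf n), h.mg.add h'.mg, ?_⟩
  have h1 : Tendsto (fun n => 2 * (∫ z, (f n z - g z) ^ 2 ∂μ) + 2 * ∫ z, (f' n z - g' z) ^ 2 ∂μ)
      atTop (𝓝 0) := by
    simpa using (h.lim.const_mul 2).add (h'.lim.const_mul 2)
  refine squeeze_zero (fun n => sq_nonneg_int _) (fun n => ?_) h1
  have i1 : Integrable (fun z => 2 * (f n z - g z) ^ 2) μ :=
    (((h.mf n).sub h.mg).integrable_sq.const_mul 2)
  have i2 : Integrable (fun z => 2 * (f' n z - g' z) ^ 2) μ :=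
    (((h'.mf n).sub h'.mg).integrable_sq.const_mul 2)
  have i3 : Integrable (fun z => (f n z + f' n z - (g z + g' z)) ^ 2) μ :=
    (((h.mf n).add (h'.mf n)).sub (h.mg.add h'.mg)).integrable_sq
  rw [← integral_const_mul, ← integral_const_mul, ← integral_add i1 i2]
  refine integral_mono i3 (i1.add i2) fun z => ?_
  nlinarith [sq_nonneg ((f n z - g z) - (f' n z - g' z))]

theorem L2T.const_mul {f : ℕ → α → ℝ} {g : α → ℝ} (h : L2T μ f g) (c : ℝ) :
    L2T μ (fun n z => c * f n z) (fun z => c * g z) := by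
  refine h.of_le' (fun n => (h.mf n).const_mul c) (h.mg.const_mul c) |c| fun n =>
    Eventually.of_forall fun z => ?_
  rw [← mul_sub, abs_mul]

theorem L2T.neg {f : ℕ → α → ℝ} {g : α → ℝ} (h : L2T μ f g) :
    L2T μ (fun n z => - f n z) (fun z => - g z) := by
  simpa using h.const_mul (-1)

theorem L2T.sub {f f' : ℕ → α → ℝ} {g g' : α → ℝ} (h : L2T μ f g) (h' : L2T μ f' g') :
    L2T μ (fun n z => f n z - f' n z) (fun z => g z - g' z) := by
  simpa [sub_eq_add_neg] using h.add h'.neg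

theorem L2T.const {g : α → ℝ} (h : MemLp g 2 μ) : L2T μ (fun _ => g) g :=
  ⟨fun _ => h, h, by simp⟩

theorem L2T.abs {f : ℕ → α → ℝ} {g : α → ℝ} (h : L2T μ f g) :
    L2T μ (fun n z => |f n z|) (fun z => |g z|) := by
  refine h.of_le' (fun n => (h.mf n).abs) h.mg.abs 1 fun n => Eventually.of_forall fun z => ?_
  rw [one_mul]
  exact abs_abs_sub_abs_le _ _

/-- products with bounded functions -/
theorem bdd_mul_memLp {f w : α → ℝ} (hf : MemLp f 2 μ) (hw : AEStronglyMeasurable w μ) (K : ℝ)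
    (hK : ∀ᵐ z ∂μ, |w z| ≤ K) : MemLp (fun z => w z * f z) 2 μ := by
  refine (hf.const_mul K).of_le (hw.mul hf.1) ?_
  filter_upwards [hK] with z hz
  have hK0 : 0 ≤ K := (abs_nonneg _).trans hz
  simp only [norm_mul, Real.norm_eq_abs, abs_of_nonneg hK0]
  exact mul_le_mul_of_nonneg_right hz (abs_nonneg _)

theorem L2T.bdd_mul {f : ℕ → α → ℝ} {g w : α → ℝ} (h : L2T μ f g) (hw : AEStronglyMeasurable w μ)
    (K : ℝ) (hK : ∀ᵐ z ∂μ, |w z| ≤ K) : L2T μ (fun n z => w z * f n z) (fun z => w z * g z) := by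
  refine h.of_le' (fun n => bdd_mul_memLp (h.mf n) hw K hK) (bdd_mul_memLp h.mg hw K hK) K
    fun n => ?_
  filter_upwards [hK] with z hz
  rw [← mul_sub, abs_mul]
  exact mul_le_mul_of_nonneg_right hz (abs_nonneg _)

variable [IsFiniteMeasure μ]

theorem L2T.L1 {f : ℕ → α → ℝ} {g : α → ℝ} (h : L2T μ f g) :
    Tendsto (fun n => ∫ z, |f n z - g z| ∂μ) atTop (𝓝 0) := by
  have h1 : L2T μ (fun n z => |f n z - g z|) (fun z => |g z - g z|) :=
    (h.sub (L2T.const h.mg)).abs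
  have h2 : L2T μ (fun _ _ => (1:ℝ)) (fun _ => (1:ℝ)) := L2T.const (memLp_const 1)
  simpa using h1.inner h2

theorem L2T.int {f : ℕ → α → ℝ} {g : α → ℝ} (h : L2T μ f g) :
    Tendsto (fun n => ∫ z, f n z ∂μ) atTop (𝓝 (∫ z, g z ∂μ)) := by
  have h2 : L2T μ (fun _ _ => (1:ℝ)) (fun _ => (1:ℝ)) := L2T.const (memLp_const 1)
  simpa using h.inner h2

theorem L2T.absint {f : ℕ → α → ℝ} {g : α → ℝ} (h : L2T μ f g) :
    Tendsto (fun n => ∫ z, |f n z| ∂μ) atTop (𝓝 (∫ z, |g z| ∂μ)) := h.abs.int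

/-- `| |x|^(p+1) - |y|^(p+1) | ≤ 2 (1 + |x| + |y|) |x - y|` -/
theorem abs_pow_sub_le {p : ℝ} (hp : 0 < p) (hp1 : p < 1) (x y : ℝ) :
    |(|x| ^ (p + 1) - |y| ^ (p + 1))| ≤ (2 * (1 + |x| + |y|)) * |x - y| := by
  have hsp : ∀ t : ℝ, |sp p t| ≤ 1 + |t| := by
    intro t
    rw [abs_sp hp]
    rcases le_total |t| 1 with h | h
    · have := Real.rpow_le_one (abs_nonneg t) h hp.le
      linarith [abs_nonneg t]
    · have := Real.rpow_le_rpow_of_exponent_le h hp1.le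
      rw [Real.rpow_one] at this
      linarith
  have key : ∀ x y : ℝ, |y| ^ (p + 1) - |x| ^ (p + 1) ≤ (2 * (1 + |x| + |y|)) * |x - y| := by
    intro x y
    have h1 := tangent (q := p + 1) (by linarith) x y
    rw [show p + 1 - 1 = p by ring] at h1
    have h2 : -((p + 1) * sp p y * (x - y)) ≤ 2 * (1 + |x| + |y|) * |x - y| := by
      calc -((p + 1) * sp p y * (x - y)) ≤ |(p + 1) * sp p y * (x - y)| := neg_le_abs _
        _ = (p + 1) * |sp p y| * |x - y| := by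
          rw [abs_mul, abs_mul, abs_of_pos (by linarith : (0:ℝ) < p + 1)]
        _ ≤ 2 * (1 + |x| + |y|) * |x - y| := by
          apply mul_le_mul_of_nonneg_right _ (abs_nonneg _)
          apply mul_le_mul (by linarith) _ (abs_nonneg _) (by norm_num)
          linarith [hsp y, abs_nonneg x]
    linarith
  rw [abs_le]
  constructor
  · have := key x y
    linarith
  · have := key y x
    rw [abs_sub_comm y x] at this
    linarith

theorem pow_int {p : ℝ} (hp : 0 < p) (hp1 : p < 1) {f : α → ℝ} (hf : MemLp f 2 μ) :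
    Integrable (fun z => |f z| ^ (p + 1)) μ := by
  have hm : AEStronglyMeasurable (fun z => |f z| ^ (p + 1)) μ :=
    (continuous_abs.rpow_const (fun _ => Or.inr (by linarith))).comp_aestronglyMeasurable hf.1
  have h1 : Integrable (fun z => 1 + f z ^ 2) μ := (integrable_const 1).add hf.integrable_sq
  refine h1.mono hm (Eventually.of_forall fun z => ?_)
  rw [Real.norm_eq_abs, Real.norm_eq_abs,
    abs_of_nonneg (Real.rpow_nonneg (abs_nonneg (f z)) (p + 1)),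
    abs_of_nonneg (by positivity : 0 ≤ 1 + f z ^ 2)]
  rcases le_total |f z| 1 with h | h
  · have := Real.rpow_le_one (abs_nonneg (f z)) h (by linarith : 0 ≤ p + 1)
    linarith [sq_nonneg (f z)]
  · have := Real.rpow_le_rpow_of_exponent_le h (by linarith : p + 1 ≤ 2)
    rw [Real.rpow_two, sq_abs] at this
    linarith

theorem L2T.pow {p : ℝ} (hp : 0 < p) (hp1 : p < 1) {f : ℕ → α → ℝ} {g w : α → ℝ} (h : L2T μ f g)
    (hw : AEStronglyMeasurable w μ) (K : ℝ) (hK : ∀ᵐ z ∂μ, |w z| ≤ K) :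
    Tendsto (fun n => ∫ z, |f n z| ^ (p + 1) * w z ∂μ) atTop
      (𝓝 (∫ z, |g z| ^ (p + 1) * w z ∂μ)) := by
  rw [tendsto_iff_norm_sub_tendsto_zero]
  have hi : ∀ f : α → ℝ, MemLp f 2 μ → Integrable (fun z => |f z| ^ (p + 1) * w z) μ := by
    intro f hf
    exact (pow_int hp hp1 hf).mul_bdd hw (by simpa using hK)
  have h1 : L2T μ (fun n z => |f n z - g z|) (fun z => |g z - g z|) :=
    (h.sub (L2T.const h.mg)).abs
  have h2 : L2T μ (fun n z => K * (2 * (1 + |f n z| + |g z|)))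
      (fun z => K * (2 * (1 + |g z| + |g z|))) := by
    have h3 : L2T μ (fun _ _ => (1:ℝ)) (fun _ => (1:ℝ)) := L2T.const (memLp_const 1)
    exact (((h3.add h.abs).add (L2T.const h.mg.abs)).const_mul 2).const_mul K
  have h4 := h2.inner h1
  simp only [sub_self, abs_zero, mul_zero, integral_zero] at h4
  refine squeeze_zero (fun n => norm_nonneg _) (fun n => ?_) h4
  rw [← integral_sub (hi _ (h.mf n)) (hi _ h.mg)]
  refine (norm_integral_le_integral_norm _).trans ?_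
  refine integral_mono_ae ((hi _ (h.mf n)).sub (hi _ h.mg)).norm
    ((h2.mf n).integrable_mul (h1.mf n)) ?_
  filter_upwards [hK] with z hz
  have hK0 : 0 ≤ K := (abs_nonneg _).trans hz
  rw [Real.norm_eq_abs, ← sub_mul, abs_mul]
  calc |(|f n z| ^ (p + 1) - |g z| ^ (p + 1))| * |w z|
      ≤ ((2 * (1 + |f n z| + |g z|)) * |f n z - g z|) * K :=
        mul_le_mul (abs_pow_sub_le hp hp1 _ _) hz (abs_nonneg _) (by positivity)
    _ = _ := by ring

end L2

end Pool.Agent.Lib.MP_e46711_an.H1
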